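import Mathlib
import Pool.Agent.H.MP_59b15d_al.h95e.Sec2

set_option autoImplicit false

/-!
# Translates of subspaces, pointwise and setwise stabilisers
-/

namespace Pool.MP_59b15d_al.H93E

open Module Pool.MP_59b15d_al.H95E

variable {F V Γ : Type*} [Field F] [AddCommGroup V] [Module F V] [Group Γ]

/-- The translate of a subspace. -/
def mv (ρ : Γ →* Module.End F V) (g : Γ) (W : Submodule F V) : Submodule F V := W.map (ρ g)

theorem mem_mv {ρ : Γ →* Module.End F V} {g : Γ} {W : Submodule F V} {v : V} :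
    v ∈ mv ρ g W ↔ ρ g⁻¹ v ∈ W := by
  constructor
  · rintro ⟨w, hw, rfl⟩
    rw [rho_inv]
    exact hw
  · intro h
    exact ⟨_, h, rho_inv' ρ g v⟩

theorem mv_mem {ρ : Γ →* Module.End F V} (g : Γ) {W : Submodule F V} {v : V} (h : v ∈ W) :
    ρ g v ∈ mv ρ g W := ⟨v, h, rfl⟩

theorem mv_mul (ρ : Γ →* Module.End F V) (g k : Γ) (W : Submodule F V) :
    mv ρ (g * k) W = mv ρ g (mv ρ k W) := by
  ext v
  rw [mem_mv, mem_mv, mem_mv, mul_inv_rev, rho_mul]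

theorem mv_one (ρ : Γ →* Module.End F V) (W : Submodule F V) : mv ρ 1 W = W := by
  ext v
  rw [mem_mv, inv_one, rho_one]

theorem mv_mono (ρ : Γ →* Module.End F V) (g : Γ) {W W' : Submodule F V} (h : W ≤ W') :
    mv ρ g W ≤ mv ρ g W' := Submodule.map_mono h

theorem mv_le_mv (ρ : Γ →* Module.End F V) (g : Γ) {W W' : Submodule F V} :
    mv ρ g W ≤ mv ρ g W' ↔ W ≤ W' := by
  refine ⟨fun h => ?_, mv_mono ρ g⟩
  have h1 := mv_mono ρ g⁻¹ h
  rwa [← mv_mul, ← mv_mul, inv_mul_cancel, mv_one, mv_one] at h1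

theorem mv_inf (ρ : Γ →* Module.End F V) (g : Γ) (W W' : Submodule F V) :
    mv ρ g (W ⊓ W') = mv ρ g W ⊓ mv ρ g W' := by
  ext v
  rw [mem_mv, Submodule.mem_inf, Submodule.mem_inf, mem_mv, mem_mv]

theorem mv_bot (ρ : Γ →* Module.End F V) (g : Γ) : mv ρ g (⊥ : Submodule F V) = ⊥ :=
  Submodule.map_bot _

theorem mv_inv_le (ρ : Γ →* Module.End F V) {g : Γ} {W W' : Submodule F V} :
    mv ρ g⁻¹ W ≤ W' ↔ W ≤ mv ρ g W' := by
  rw [← mv_le_mv ρ g, ← mv_mul, mul_inv_cancel, mv_one]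

/-- The pointwise stabiliser of a subspace. -/
def fx (ρ : Γ →* Module.End F V) (W : Submodule F V) : Subgroup Γ where
  carrier := {x | ∀ w ∈ W, ρ x w = w}
  one_mem' := fun w _ => rho_one ρ w
  mul_mem' := by
    intro x y hx hy w hw
    rw [rho_mul, hy w hw, hx w hw]
  inv_mem' := by
    intro x hx w hw
    conv_lhs => rw [← hx w hw]
    rw [rho_inv]

theorem mem_fx {ρ : Γ →* Module.End F V} {W : Submodule F V} {x : Γ} :
    x ∈ fx ρ W ↔ ∀ w ∈ W, ρ x w = w := Iff.rfl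

/-- The stabiliser of a subspace. -/
def sb (ρ : Γ →* Module.End F V) (W : Submodule F V) : Subgroup Γ where
  carrier := {x | mv ρ x W = W}
  one_mem' := mv_one ρ W
  mul_mem' := by
    intro x y hx hy
    change mv ρ (x * y) W = W
    rw [mv_mul, show mv ρ y W = W from hy]
    exact hx
  inv_mem' := by
    intro x hx
    change mv ρ x⁻¹ W = W
    conv_lhs => rw [← show mv ρ x W = W from hx]
    rw [← mv_mul, inv_mul_cancel, mv_one]

theorem mem_sb {ρ : Γ →* Module.End F V} {W : Submodule F V} {x : Γ} :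
    x ∈ sb ρ W ↔ mv ρ x W = W := Iff.rfl

theorem sb_apply {ρ : Γ →* Module.End F V} {W : Submodule F V} {x : Γ} (hx : x ∈ sb ρ W) {w : V}
    (hw : w ∈ W) : ρ x w ∈ W := by
  have h1 : ρ x w ∈ mv ρ x W := mv_mem x hw
  rwa [mem_sb.1 hx] at h1

theorem mem_sb_of_le {ρ : Γ →* Module.End F V} {W : Submodule F V} {x : Γ}
    (h1 : ∀ w ∈ W, ρ x w ∈ W) (h2 : ∀ w ∈ W, ρ x⁻¹ w ∈ W) : x ∈ sb ρ W := by
  apply le_antisymm
  · rintro _ ⟨w, hw, rfl⟩
    exact h1 w hw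
  · intro w hw
    exact mem_mv.2 (h2 w hw)

theorem fx_le_sb (ρ : Γ →* Module.End F V) (W : Submodule F V) : fx ρ W ≤ sb ρ W := by
  intro x hx
  refine mem_sb_of_le (fun w hw => ?_) fun w hw => ?_
  · rw [hx w hw]; exact hw
  · rw [inv_mem hx w hw]; exact hw

theorem mem_fx_mv {ρ : Γ →* Module.End F V} {g : Γ} {W : Submodule F V} {x : Γ} :
    x ∈ fx ρ (mv ρ g W) ↔ g⁻¹ * x * g ∈ fx ρ W := by
  constructor
  · intro h w hw
    have h1 := h _ (mv_mem g hw)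
    rw [mul_assoc, rho_mul, rho_mul, h1, rho_inv]
  · rintro h _ ⟨w, hw, rfl⟩
    have h1 := h w hw
    rw [mul_assoc, rho_mul, rho_mul] at h1
    calc ρ x (ρ g w) = ρ g (ρ g⁻¹ (ρ x (ρ g w))) := (rho_inv' ρ g _).symm
      _ = ρ g w := by rw [h1]

theorem mem_sb_mv {ρ : Γ →* Module.End F V} {g : Γ} {W : Submodule F V} {x : Γ} :
    x ∈ sb ρ (mv ρ g W) ↔ g⁻¹ * x * g ∈ sb ρ W := by
  rw [mem_sb, mem_sb, mul_assoc, mv_mul, mv_mul]
  constructor
  · intro h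
    rw [h, ← mv_mul, inv_mul_cancel, mv_one]
  · intro h
    have h1 : mv ρ g (mv ρ g⁻¹ (mv ρ x (mv ρ g W))) = mv ρ g W := by rw [h]
    rwa [← mv_mul, mul_inv_cancel, mv_one] at h1

/-- What commutes with `g` and fixes `W` fixes the translate. -/
theorem fx_mv_of_comm {ρ : Γ →* Module.End F V} {g : Γ} {W : Submodule F V} {x : Γ}
    (hx : x ∈ fx ρ W) (hc : Commute x g) : x ∈ fx ρ (mv ρ g W) := by
  rw [mem_fx_mv, mul_assoc, hc.eq, inv_mul_cancel_left]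
  exact hx

theorem sb_mv_of_comm {ρ : Γ →* Module.End F V} {g : Γ} {W : Submodule F V} {x : Γ}
    (hx : x ∈ sb ρ W) (hc : Commute x g) : x ∈ sb ρ (mv ρ g W) := by
  rw [mem_sb_mv, mul_assoc, hc.eq, inv_mul_cancel_left]
  exact hx

/-- An element `x` with `x g = g y`, `y` fixing `W`. -/
theorem fx_mv_of_eq {ρ : Γ →* Module.End F V} {g : Γ} {W : Submodule F V} {x y : Γ}
    (hy : y ∈ fx ρ W) (hc : x * g = g * y) : x ∈ fx ρ (mv ρ g W) := by
  rw [mem_fx_mv, mul_assoc, hc, inv_mul_cancel_left]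
  exact hy

theorem sb_mv_of_eq {ρ : Γ →* Module.End F V} {g : Γ} {W : Submodule F V} {x y : Γ}
    (hy : y ∈ sb ρ W) (hc : x * g = g * y) : x ∈ sb ρ (mv ρ g W) := by
  rw [mem_sb_mv, mul_assoc, hc, inv_mul_cancel_left]
  exact hy

theorem mv_of_sb {ρ : Γ →* Module.End F V} {g x : Γ} {W : Submodule F V} (hx : x ∈ sb ρ W) :
    mv ρ (g * x) W = mv ρ g W := by rw [mv_mul, mem_sb.1 hx]

theorem mv_of_fx {ρ : Γ →* Module.End F V} {g x : Γ} {W : Submodule F V} (hx : x ∈ fx ρ W) :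
    mv ρ (g * x) W = mv ρ g W := mv_of_sb (fx_le_sb ρ W hx)

theorem fx_anti (ρ : Γ →* Module.End F V) {W W' : Submodule F V} (h : W ≤ W') :
    fx ρ W' ≤ fx ρ W := fun _ hx w hw => hx w (h hw)

/-- The operator `n_x = ρ x - 1`. -/
def nn (ρ : Γ →* Module.End F V) (x : Γ) : Module.End F V := ρ x - 1

theorem nn_apply (ρ : Γ →* Module.End F V) (x : Γ) (v : V) : nn ρ x v = ρ x v - v := rfl

theorem nn_eq_zero {ρ : Γ →* Module.End F V} {x : Γ} {W : Submodule F V} (hx : x ∈ fx ρ W) {w : V}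
    (hw : w ∈ W) : nn ρ x w = 0 := by rw [nn_apply, hx w hw, sub_self]

/-- If `x g = g y` then `n_x ρ(g) = ρ(g) n_y`. -/
theorem nn_conj (ρ : Γ →* Module.End F V) {x y g : Γ} (h : x * g = g * y) (v : V) :
    nn ρ x (ρ g v) = ρ g (nn ρ y v) := by
  rw [nn_apply, nn_apply, map_sub, ← rho_mul, ← rho_mul, h]

theorem nn_comm (ρ : Γ →* Module.End F V) {x y : Γ} (h : Commute x y) (v : V) :
    nn ρ x (nn ρ y v) = nn ρ y (nn ρ x v) := by
  have h1 : ρ x (ρ y v) = ρ y (ρ x v) := by rw [← rho_mul, ← rho_mul, h.eq]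
  simp only [nn_apply, map_sub, h1]
  abel

/-- Transport of an inclusion `n_x W ≤ W'`. -/
theorem nn_mv (ρ : Γ →* Module.End F V) {x y g : Γ} (h : x * g = g * y) {W W' : Submodule F V}
    (hW : ∀ w ∈ W, nn ρ y w ∈ W') : ∀ w ∈ mv ρ g W, nn ρ x w ∈ mv ρ g W' := by
  rintro _ ⟨w, hw, rfl⟩
  rw [nn_conj ρ h]
  exact mv_mem g (hW w hw)

end Pool.MP_59b15d_al.H93E
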