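import Mathlib
import Pool.Agent.H.MP_59b15d_al.h93e.Mv

set_option autoImplicit false

/-!
# Exact families at one standard system of curves

`Ex ρ A B C S g m W`: the subspace `W` belongs to the curves of the last `m` handles. The two
operations `W ⊓ A B W` and `κ` lower `m`.
-/

namespace Pool.MP_59b15d_al.H93E

open Module Pool.MP_59b15d_al.H95E

variable {F V Γ : Type*} [Field F] [AddCommGroup V] [Module F V] [Group Γ]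
  {ρ : Γ →* Module.End F V}

/-! ### One pair -/

/-- The data for one handle: `A` fixes `W`, `n_B W ≤ A B W`, `(A B)^3` stabilises `W`. -/
structure Pr (ρ : Γ →* Module.End F V) (A B : Γ) (W : Submodule F V) : Prop where
  br : A * B * A = B * A * B
  fA : A ∈ fx ρ W
  ii : ∀ w ∈ W, nn ρ B w ∈ mv ρ (A * B) W
  io : (A * B) ^ 3 ∈ sb ρ W

namespace Pr

variable {A B : Γ} {W : Submodule F V}

theorem fB (P : Pr ρ A B W) : B ∈ fx ρ (mv ρ (A * B) W) := by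
  refine fx_mv_of_eq P.fA ?_
  rw [← mul_assoc, ← P.br]

theorem aba (P : Pr ρ A B W) : mv ρ (A * B * A) W = mv ρ (A * B) W := mv_of_fx P.fA

theorem aba2 (P : Pr ρ A B W) : mv ρ (A * B * A) (mv ρ (A * B) W) = W := by
  have h1 : (A * B) ^ 3 = A * B * A * (A * B) * A := by
    calc (A * B) ^ 3 = A * B * A * (B * A * B) := by simp only [pow_succ, pow_zero]; group
      _ = A * B * A * (A * B * A) := by rw [P.br]
      _ = _ := by group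
  have h2 : mv ρ (A * B * A * (A * B) * A) W = W := by rw [← h1]; exact P.io
  rw [mv_of_fx P.fA, mv_mul] at h2
  exact h2

theorem ii' (P : Pr ρ A B W) : ∀ x ∈ mv ρ (A * B) W, nn ρ A x ∈ W := by
  have h1 : A * (A * B * A) = (A * B * A) * B := by
    rw [P.br]
    calc A * (B * A * B) = A * B * A * B := by group
      _ = _ := by rw [P.br]
  have h2 := nn_mv ρ h1 P.ii
  rwa [P.aba, P.aba2] at h2

theorem xx (P : Pr ρ A B W) {y : V} (hy : y ∈ W) :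
    nn ρ B (nn ρ A (nn ρ B y)) = -nn ρ B y := by
  have hA : ρ A y = y := P.fA y hy
  have hx : ρ B (nn ρ B y) = nn ρ B y := P.fB _ (P.ii y hy)
  have h1 : ρ A (ρ B (ρ A y)) = ρ B (ρ A (ρ B y)) := by
    rw [← rho_mul, ← rho_mul, ← rho_mul, ← rho_mul, P.br]
  obtain ⟨x, hxd⟩ : ∃ x, x = nn ρ B y := ⟨_, rfl⟩
  have hB : ρ B y = y + x := by rw [hxd, nn_apply]; abel
  rw [← hxd] at hx ⊢
  rw [hA, hB, map_add, hA, map_add, hB] at h1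
  have h2 : nn ρ A x = ρ A x - x := rfl
  have h3 : nn ρ B (nn ρ A x) = ρ B (ρ A x) - ρ B x - (ρ A x - x) := by
    rw [nn_apply, h2, map_sub]
  have h4 : ρ B (ρ A x) = ρ A x - x := by
    have h5 : y + ρ A x = y + x + ρ B (ρ A x) := h1
    have h6 : ρ B (ρ A x) = (y + x + ρ B (ρ A x)) - (y + x) := by abel
    rw [h6, ← h5]
    abel
  rw [h3, h4, hx]
  abel

/-- If `W ∩ A B W = 0`, then `n_A n_B y = - y`. -/
theorem nAnB (P : Pr ρ A B W) (h0 : W ⊓ mv ρ (A * B) W = ⊥) {y : V} (hy : y ∈ W) :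
    nn ρ A (nn ρ B y) = -y := by
  have hx : nn ρ B y ∈ mv ρ (A * B) W := P.ii y hy
  have hax : nn ρ A (nn ρ B y) ∈ W := P.ii' _ hx
  obtain ⟨w, hw⟩ : ∃ w, w = y + nn ρ A (nn ρ B y) := ⟨_, rfl⟩
  have hwW : w ∈ W := by rw [hw]; exact W.add_mem hy hax
  have hBw : ρ B w = w := by
    have h1 : nn ρ B w = 0 := by rw [hw, map_add, P.xx hy, add_neg_cancel]
    rwa [nn_apply, sub_eq_zero] at h1
  have hAw : ρ A w = w := P.fA w hwW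
  have h2 : w ∈ mv ρ (A * B) W := by
    have h3 := mv_mem (ρ := ρ) (A * B) hwW
    rwa [rho_mul, hBw, hAw] at h3
  have h3 : w ∈ (⊥ : Submodule F V) := h0 ▸ (⟨hwW, h2⟩ : w ∈ W ⊓ mv ρ (A * B) W)
  rw [Submodule.mem_bot] at h3
  rw [h3] at hw
  exact (neg_eq_of_add_eq_zero_right hw.symm).symm

/-- If `W ∩ A B W = 0`, then `A B y = n_B y`. -/
theorem AB_eq (P : Pr ρ A B W) (h0 : W ⊓ mv ρ (A * B) W = ⊥) {y : V} (hy : y ∈ W) :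
    ρ (A * B) y = nn ρ B y := by
  have h1 := P.nAnB h0 hy
  have hA : ρ A y = y := P.fA y hy
  rw [nn_apply, nn_apply, map_sub, hA, ← rho_mul] at h1
  rw [nn_apply]
  have h2 : ρ (A * B) y = (ρ (A * B) y - y - (ρ B y - y)) + ρ B y := by abel
  rw [h2, h1]
  abel

theorem nBnA (P : Pr ρ A B W) (h0 : W ⊓ mv ρ (A * B) W = ⊥) :
    ∀ x ∈ mv ρ (A * B) W, nn ρ B (nn ρ A x) = -x := by
  rintro _ ⟨y, hy, rfl⟩
  rw [P.AB_eq h0 hy, P.nAnB h0 hy, map_neg]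

/-- Transport. -/
theorem conj (P : Pr ρ A B W) {A' B' g : Γ} (hA : A' * g = g * A) (hB : B' * g = g * B) :
    Pr ρ A' B' (mv ρ g W) := by
  have eA : A' = g * A * g⁻¹ := eq_mul_inv_of_mul_eq hA
  have eB : B' = g * B * g⁻¹ := eq_mul_inv_of_mul_eq hB
  have eAB : A' * B' * g = g * (A * B) := by rw [mul_assoc, hB, ← mul_assoc, hA, mul_assoc]
  have e1 : mv ρ (A' * B') (mv ρ g W) = mv ρ g (mv ρ (A * B) W) := by
    rw [← mv_mul, ← mv_mul, eAB]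
  refine ⟨?_, fx_mv_of_eq P.fA hA, ?_, ?_⟩
  · calc A' * B' * A' = g * (A * B * A) * g⁻¹ := by rw [eA, eB]; group
      _ = g * (B * A * B) * g⁻¹ := by rw [P.br]
      _ = _ := by rw [eA, eB]; group
  · rw [e1]
    exact nn_mv ρ hB P.ii
  · refine sb_mv_of_eq P.io ?_
    have e2 : A' * B' = g * (A * B) * g⁻¹ := eq_mul_inv_of_mul_eq eAB
    rw [e2, conj_pow]
    group

theorem conj_zero {A' B' g : Γ} (hA : A' * g = g * A) (hB : B' * g = g * B)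
    (h0 : W ⊓ mv ρ (A * B) W = ⊥) : mv ρ g W ⊓ mv ρ (A' * B') (mv ρ g W) = ⊥ := by
  have eAB : A' * B' * g = g * (A * B) := by rw [mul_assoc, hB, ← mul_assoc, hA, mul_assoc]
  have e1 : mv ρ (A' * B') (mv ρ g W) = mv ρ g (mv ρ (A * B) W) := by
    rw [← mv_mul, ← mv_mul, eAB]
  rw [e1, ← mv_inf, h0, mv_bot]

end Pr

/-! ### A chain of five elements -/

/-- A chain of five elements. -/
structure Ch5 (T1 T2 T3 T4 T5 : Γ) : Prop where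
  b12 : T1 * T2 * T1 = T2 * T1 * T2
  b23 : T2 * T3 * T2 = T3 * T2 * T3
  b34 : T3 * T4 * T3 = T4 * T3 * T4
  b45 : T4 * T5 * T4 = T5 * T4 * T5
  c13 : Commute T1 T3
  c14 : Commute T1 T4
  c15 : Commute T1 T5
  c24 : Commute T2 T4
  c25 : Commute T2 T5
  c35 : Commute T3 T5

namespace Ch5

variable {T1 T2 T3 T4 T5 : Γ} (H : Ch5 T1 T2 T3 T4 T5)
include H

theorem s1 : T2 * (T1 * T2 * T3 * T4 * T5) = T1 * T2 * T3 * T4 * T5 * T1 := by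
  have hc : Commute T1 (T3 * T4 * T5) := (H.c13.mul_right H.c14).mul_right H.c15
  calc T2 * (T1 * T2 * T3 * T4 * T5) = T2 * T1 * T2 * (T3 * T4 * T5) := by
        simp only [mul_assoc]
    _ = T1 * T2 * (T1 * (T3 * T4 * T5)) := by rw [← H.b12]; simp only [mul_assoc]
    _ = _ := by rw [hc.eq]; simp only [mul_assoc]

theorem s2 : T3 * (T1 * T2 * T3 * T4 * T5) = T1 * T2 * T3 * T4 * T5 * T2 := by
  have hc : Commute T2 (T4 * T5) := H.c24.mul_right H.c25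
  calc T3 * (T1 * T2 * T3 * T4 * T5) = T3 * T1 * T2 * T3 * (T4 * T5) := by
        simp only [mul_assoc]
    _ = T1 * (T3 * T2 * T3) * (T4 * T5) := by rw [← H.c13.eq]; simp only [mul_assoc]
    _ = T1 * T2 * T3 * (T2 * (T4 * T5)) := by rw [← H.b23]; simp only [mul_assoc]
    _ = _ := by rw [hc.eq]; simp only [mul_assoc]

theorem s3 : T4 * (T1 * T2 * T3 * T4 * T5) = T1 * T2 * T3 * T4 * T5 * T3 := by
  have hc : Commute T4 (T1 * T2) := H.c14.symm.mul_right H.c24.symm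
  calc T4 * (T1 * T2 * T3 * T4 * T5) = T4 * (T1 * T2) * T3 * T4 * T5 := by
        simp only [mul_assoc]
    _ = T1 * T2 * (T4 * T3 * T4) * T5 := by rw [hc.eq]; simp only [mul_assoc]
    _ = T1 * T2 * T3 * T4 * (T3 * T5) := by rw [← H.b34]; simp only [mul_assoc]
    _ = _ := by rw [H.c35.eq]; simp only [mul_assoc]

theorem s4 : T5 * (T1 * T2 * T3 * T4 * T5) = T1 * T2 * T3 * T4 * T5 * T4 := by
  have hc : Commute T5 (T1 * T2 * T3) := (H.c15.symm.mul_right H.c25.symm).mul_right H.c35.symm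
  calc T5 * (T1 * T2 * T3 * T4 * T5) = T5 * (T1 * T2 * T3) * T4 * T5 := by
        simp only [mul_assoc]
    _ = T1 * T2 * T3 * (T5 * T4 * T5) := by rw [hc.eq]; simp only [mul_assoc]
    _ = _ := by rw [← H.b45]; simp only [mul_assoc]

theorem t13 : T1 * (T2 * T3 * (T1 * T2)) = T2 * T3 * (T1 * T2) * T3 := by
  calc T1 * (T2 * T3 * (T1 * T2)) = T1 * T2 * (T3 * T1) * T2 := by simp only [mul_assoc]
    _ = T1 * T2 * T1 * (T3 * T2) := by rw [← H.c13.eq]; simp only [mul_assoc]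
    _ = T2 * T1 * (T2 * T3 * T2) := by rw [H.b12]; simp only [mul_assoc]
    _ = T2 * (T1 * T3) * T2 * T3 := by rw [H.b23]; simp only [mul_assoc]
    _ = _ := by rw [H.c13.eq]; simp only [mul_assoc]

end Ch5

/-- The subspaces `E_2, …, E_5`. -/
def E2 (ρ : Γ →* Module.End F V) (T1 T2 : Γ) (W : Submodule F V) : Submodule F V :=
  mv ρ (T1 * T2) W

/-- The subspace `E_3`. -/
def E3 (ρ : Γ →* Module.End F V) (T1 T2 T3 : Γ) (W : Submodule F V) : Submodule F V :=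
  mv ρ (T2 * T3) (E2 ρ T1 T2 W)

/-- The subspace `E_4`. -/
def E4 (ρ : Γ →* Module.End F V) (T1 T2 T3 T4 : Γ) (W : Submodule F V) : Submodule F V :=
  mv ρ (T3 * T4) (E3 ρ T1 T2 T3 W)

/-- The subspace `E_5`. -/
def E5 (ρ : Γ →* Module.End F V) (T1 T2 T3 T4 T5 : Γ) (W : Submodule F V) : Submodule F V :=
  mv ρ (T4 * T5) (E4 ρ T1 T2 T3 T4 W)

/-- The data on a chain. -/
structure Cfg (ρ : Γ →* Module.End F V) (T1 T2 T3 T4 T5 : Γ) (W : Submodule F V) : Prop where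
  ch : Ch5 T1 T2 T3 T4 T5
  pr : Pr ρ T1 T2 W
  f3 : T3 ∈ fx ρ W
  f4 : T4 ∈ fx ρ W
  f5 : T5 ∈ fx ρ W
  zero : W ⊓ mv ρ (T1 * T2) W = ⊥

/-- The operator `κ`. -/
def kap (ρ : Γ →* Module.End F V) (T1 T2 T3 T5 : Γ) : Module.End F V :=
  nn ρ T3 - nn ρ T5 + nn ρ T1 * nn ρ T2 * nn ρ T3

theorem kap_apply (T1 T2 T3 T5 : Γ) (v : V) : kap ρ T1 T2 T3 T5 v =
    nn ρ T3 v - nn ρ T5 v + nn ρ T1 (nn ρ T2 (nn ρ T3 v)) := rfl

/-- The subspace of the values of `κ`. -/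
def KK (ρ : Γ →* Module.End F V) (T1 T2 T3 T4 T5 : Γ) (W : Submodule F V) : Submodule F V :=
  (E4 ρ T1 T2 T3 T4 W).map (kap ρ T1 T2 T3 T5)

theorem rho_comm {x y : Γ} (h : Commute x y) (v : V) : ρ x (ρ y v) = ρ y (ρ x v) := by
  rw [← rho_mul, ← rho_mul, h.eq]

theorem rho_nn {x y : Γ} (h : Commute x y) (v : V) : ρ x (nn ρ y v) = nn ρ y (ρ x v) := by
  rw [nn_apply, nn_apply, map_sub, rho_comm h]

theorem kap_comm {T1 T2 T3 T5 x : Γ} (h1 : Commute x T1) (h2 : Commute x T2) (h3 : Commute x T3)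
    (h5 : Commute x T5) (v : V) : ρ x (kap ρ T1 T2 T3 T5 v) = kap ρ T1 T2 T3 T5 (ρ x v) := by
  rw [kap_apply, kap_apply, map_add, map_sub, rho_nn h3, rho_nn h5, rho_nn h1, rho_nn h2,
    rho_nn h3]

namespace Cfg

variable {T1 T2 T3 T4 T5 : Γ} {W : Submodule F V} (X : Cfg ρ T1 T2 T3 T4 T5 W)
include X

theorem sig1 : mv ρ (T1 * T2 * T3 * T4 * T5) W = E2 ρ T1 T2 W := by
  have h1 : T3 * T4 * T5 ∈ fx ρ W := mul_mem (mul_mem X.f3 X.f4) X.f5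
  rw [show T1 * T2 * T3 * T4 * T5 = T1 * T2 * (T3 * T4 * T5) by simp only [mul_assoc],
    mv_of_fx h1]
  rfl

theorem sig2 : mv ρ (T1 * T2 * T3 * T4 * T5) (E2 ρ T1 T2 W) = E3 ρ T1 T2 T3 W := by
  have h1 : T1 * T2 * T3 * T4 * T5 * (T1 * T2) = T2 * T3 * (T1 * T2 * T3 * T4 * T5) := by
    rw [← mul_assoc (T1 * T2 * T3 * T4 * T5), ← X.ch.s1, mul_assoc T2, ← X.ch.s2]
    simp only [mul_assoc]
  rw [E2, ← mv_mul, h1, mv_mul, X.sig1]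
  rfl

theorem sig3 : mv ρ (T1 * T2 * T3 * T4 * T5) (E3 ρ T1 T2 T3 W) = E4 ρ T1 T2 T3 T4 W := by
  have h1 : T1 * T2 * T3 * T4 * T5 * (T2 * T3) = T3 * T4 * (T1 * T2 * T3 * T4 * T5) := by
    rw [← mul_assoc (T1 * T2 * T3 * T4 * T5), ← X.ch.s2, mul_assoc T3, ← X.ch.s3]
    simp only [mul_assoc]
  rw [E3, ← mv_mul, h1, mv_mul, X.sig2]
  rfl

theorem sig4 : mv ρ (T1 * T2 * T3 * T4 * T5) (E4 ρ T1 T2 T3 T4 W) = E5 ρ T1 T2 T3 T4 T5 W := by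
  have h1 : T1 * T2 * T3 * T4 * T5 * (T3 * T4) = T4 * T5 * (T1 * T2 * T3 * T4 * T5) := by
    rw [← mul_assoc (T1 * T2 * T3 * T4 * T5), ← X.ch.s3, mul_assoc T4, ← X.ch.s4]
    simp only [mul_assoc]
  rw [E4, ← mv_mul, h1, mv_mul, X.sig3]
  rfl

theorem pr2 : Pr ρ T2 T3 (E2 ρ T1 T2 W) := by
  have h := X.pr.conj X.ch.s1 X.ch.s2
  rwa [X.sig1] at h

theorem z2 : E2 ρ T1 T2 W ⊓ mv ρ (T2 * T3) (E2 ρ T1 T2 W) = ⊥ := by
  have h := Pr.conj_zero (ρ := ρ) (W := W) X.ch.s1 X.ch.s2 X.zero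
  rwa [X.sig1] at h

theorem pr3 : Pr ρ T3 T4 (E3 ρ T1 T2 T3 W) := by
  have h := X.pr2.conj X.ch.s2 X.ch.s3
  rwa [X.sig2] at h

theorem z3 : E3 ρ T1 T2 T3 W ⊓ mv ρ (T3 * T4) (E3 ρ T1 T2 T3 W) = ⊥ := by
  have h := Pr.conj_zero (ρ := ρ) X.ch.s2 X.ch.s3 X.z2
  rwa [X.sig2] at h

theorem pr4 : Pr ρ T4 T5 (E4 ρ T1 T2 T3 T4 W) := by
  have h := X.pr3.conj X.ch.s3 X.ch.s4
  rwa [X.sig3] at h

theorem z4 : E4 ρ T1 T2 T3 T4 W ⊓ mv ρ (T4 * T5) (E4 ρ T1 T2 T3 T4 W) = ⊥ := by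
  have h := Pr.conj_zero (ρ := ρ) X.ch.s3 X.ch.s4 X.z3
  rwa [X.sig3] at h

theorem f13 : T1 ∈ fx ρ (E3 ρ T1 T2 T3 W) := by
  rw [E3, E2, ← mv_mul]
  exact fx_mv_of_eq X.f3 X.ch.t13

theorem f14 : T1 ∈ fx ρ (E4 ρ T1 T2 T3 T4 W) :=
  fx_mv_of_comm X.f13 (X.ch.c13.mul_right X.ch.c14)

theorem f15 : T1 ∈ fx ρ (E5 ρ T1 T2 T3 T4 T5 W) :=
  fx_mv_of_comm X.f14 (X.ch.c14.mul_right X.ch.c15)

theorem f33 : T3 ∈ fx ρ (E3 ρ T1 T2 T3 W) := X.pr3.fA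

theorem f52 : T5 ∈ fx ρ (E2 ρ T1 T2 W) :=
  fx_mv_of_comm X.f5 (X.ch.c15.symm.mul_right X.ch.c25.symm)

theorem f53 : T5 ∈ fx ρ (E3 ρ T1 T2 T3 W) :=
  fx_mv_of_comm X.f52 (X.ch.c25.symm.mul_right X.ch.c35.symm)

theorem f55 : T5 ∈ fx ρ (E5 ρ T1 T2 T3 T4 T5 W) := X.pr4.fB

theorem f24 : T2 ∈ fx ρ (E4 ρ T1 T2 T3 T4 W) := by
  rw [← X.sig3]
  exact fx_mv_of_eq X.f13 X.ch.s1

theorem f25 : T2 ∈ fx ρ (E5 ρ T1 T2 T3 T4 T5 W) := by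
  rw [← X.sig4]
  exact fx_mv_of_eq X.f14 X.ch.s1

theorem f35 : T3 ∈ fx ρ (E5 ρ T1 T2 T3 T4 T5 W) := by
  rw [← X.sig4]
  exact fx_mv_of_eq X.f24 X.ch.s2

theorem m3 {y : V} (hy : y ∈ E4 ρ T1 T2 T3 T4 W) : nn ρ T3 y ∈ E3 ρ T1 T2 T3 W :=
  X.pr3.ii' y hy

theorem m2 {y : V} (hy : y ∈ E3 ρ T1 T2 T3 W) : nn ρ T2 y ∈ E2 ρ T1 T2 W :=
  X.pr2.ii' y hy

theorem m1 {y : V} (hy : y ∈ E2 ρ T1 T2 W) : nn ρ T1 y ∈ W :=
  X.pr.ii' y hy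

theorem m5 {y : V} (hy : y ∈ E4 ρ T1 T2 T3 T4 W) : nn ρ T5 y ∈ E5 ρ T1 T2 T3 T4 T5 W :=
  X.pr4.ii y hy

theorem fK_of {x : Γ} (h1 : x ∈ fx ρ W) (h3 : x ∈ fx ρ (E3 ρ T1 T2 T3 W))
    (h5 : x ∈ fx ρ (E5 ρ T1 T2 T3 T4 T5 W)) : x ∈ fx ρ (KK ρ T1 T2 T3 T4 T5 W) := by
  rintro _ ⟨y, hy, rfl⟩
  rw [kap_apply, map_add, map_sub, h3 _ (X.m3 hy), h5 _ (X.m5 hy),
    h1 _ (X.m1 (X.m2 (X.m3 hy)))]

theorem K1 : T1 ∈ fx ρ (KK ρ T1 T2 T3 T4 T5 W) := X.fK_of X.pr.fA X.f13 X.f15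

theorem K3 : T3 ∈ fx ρ (KK ρ T1 T2 T3 T4 T5 W) := X.fK_of X.f3 X.f33 X.f35

theorem K5 : T5 ∈ fx ρ (KK ρ T1 T2 T3 T4 T5 W) := X.fK_of X.f5 X.f53 X.f55

theorem K4 : T4 ∈ fx ρ (KK ρ T1 T2 T3 T4 T5 W) := by
  rintro _ ⟨y, hy, rfl⟩
  rw [← sub_eq_zero, ← nn_apply, kap_apply, map_add, map_sub, X.pr3.nBnA X.z3 y hy,
    X.pr4.nAnB X.z4 hy, nn_eq_zero X.f4 (X.m1 (X.m2 (X.m3 hy)))]
  abel

theorem K2 : T2 ∈ fx ρ (KK ρ T1 T2 T3 T4 T5 W) := by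
  rintro _ ⟨y, hy, rfl⟩
  rw [← sub_eq_zero, ← nn_apply, kap_apply, map_add, map_sub, nn_eq_zero X.f25 (X.m5 hy),
    X.pr.nBnA X.zero _ (X.m2 (X.m3 hy))]
  abel

omit X in
theorem comm_E4 {x : Γ} (h1 : Commute x T1) (h2 : Commute x T2) (h3 : Commute x T3)
    (h4 : Commute x T4) : Commute x (T3 * T4 * (T2 * T3) * (T1 * T2)) :=
  ((h3.mul_right h4).mul_right (h2.mul_right h3)).mul_right (h1.mul_right h2)

omit X in
theorem E4_eq : E4 ρ T1 T2 T3 T4 W = mv ρ (T3 * T4 * (T2 * T3) * (T1 * T2)) W := by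
  rw [mv_mul, mv_mul]
  rfl

omit X in
/-- An element commuting with the chain and fixing `W` fixes `K`. -/
theorem fK_comm {x : Γ} (hx : x ∈ fx ρ W) (h1 : Commute x T1) (h2 : Commute x T2)
    (h3 : Commute x T3) (h4 : Commute x T4) (h5 : Commute x T5) :
    x ∈ fx ρ (KK ρ T1 T2 T3 T4 T5 W) := by
  have hE : x ∈ fx ρ (E4 ρ T1 T2 T3 T4 W) := by
    rw [E4_eq]
    exact fx_mv_of_comm hx (comm_E4 h1 h2 h3 h4)
  rintro _ ⟨y, hy, rfl⟩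
  rw [kap_comm h1 h2 h3 h5, hE y hy]

omit X in
theorem sK_comm {x : Γ} (hx : x ∈ sb ρ W) (h1 : Commute x T1) (h2 : Commute x T2)
    (h3 : Commute x T3) (h4 : Commute x T4) (h5 : Commute x T5) :
    x ∈ sb ρ (KK ρ T1 T2 T3 T4 T5 W) := by
  have hE : x ∈ sb ρ (E4 ρ T1 T2 T3 T4 W) := by
    rw [E4_eq]
    exact sb_mv_of_comm hx (comm_E4 h1 h2 h3 h4)
  apply mem_sb_of_le
  · rintro _ ⟨y, hy, rfl⟩
    rw [kap_comm h1 h2 h3 h5]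
    exact ⟨_, sb_apply hE hy, rfl⟩
  · rintro _ ⟨y, hy, rfl⟩
    rw [kap_comm h1.inv_left h2.inv_left h3.inv_left h5.inv_left]
    exact ⟨_, sb_apply (inv_mem hE) hy, rfl⟩

omit X in
/-- The condition (ii) for `K`. -/
theorem iiK {A B : Γ} (hii : ∀ w ∈ W, nn ρ B w ∈ mv ρ (A * B) W)
    (a1 : Commute A T1) (a2 : Commute A T2) (a3 : Commute A T3) (a4 : Commute A T4)
    (a5 : Commute A T5) (b1 : Commute B T1) (b2 : Commute B T2) (b3 : Commute B T3)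
    (b4 : Commute B T4) (b5 : Commute B T5) :
    ∀ w ∈ KK ρ T1 T2 T3 T4 T5 W, nn ρ B w ∈ mv ρ (A * B) (KK ρ T1 T2 T3 T4 T5 W) := by
  have h1 : ∀ w ∈ E4 ρ T1 T2 T3 T4 W, nn ρ B w ∈ mv ρ (A * B) (E4 ρ T1 T2 T3 T4 W) := by
    have h2 := nn_mv ρ (comm_E4 b1 b2 b3 b4).eq hii
    have h3 : Commute (A * B) (T3 * T4 * (T2 * T3) * (T1 * T2)) :=
      (comm_E4 a1 a2 a3 a4).mul_left (comm_E4 b1 b2 b3 b4)
    have h4 : mv ρ (T3 * T4 * (T2 * T3) * (T1 * T2)) (mv ρ (A * B) W) =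
        mv ρ (A * B) (mv ρ (T3 * T4 * (T2 * T3) * (T1 * T2)) W) := by
      rw [← mv_mul, ← mv_mul, h3.eq]
    rw [h4, ← E4_eq] at h2
    exact h2
  have hk : ∀ v, ρ (A * B) (kap ρ T1 T2 T3 T5 v) = kap ρ T1 T2 T3 T5 (ρ (A * B) v) :=
    kap_comm (a1.mul_left b1) (a2.mul_left b2) (a3.mul_left b3) (a5.mul_left b5)
  rintro _ ⟨y, hy, rfl⟩
  have h4 : nn ρ B (kap ρ T1 T2 T3 T5 y) = kap ρ T1 T2 T3 T5 (nn ρ B y) := by
    rw [nn_apply, nn_apply, map_sub, kap_comm b1 b2 b3 b5]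
  obtain ⟨z, hz, hzy⟩ := h1 y hy
  rw [h4, ← hzy, ← hk]
  exact mv_mem _ ⟨z, hz, rfl⟩

/-- If `K = 0`, then `n_3 y - n_5 y ∈ W` for `y ∈ E_4`. -/
theorem clean (hK : KK ρ T1 T2 T3 T4 T5 W = ⊥) {y : V} (hy : y ∈ E4 ρ T1 T2 T3 T4 W) :
    nn ρ T3 y - nn ρ T5 y ∈ W := by
  have h1 : kap ρ T1 T2 T3 T5 y ∈ KK ρ T1 T2 T3 T4 T5 W := ⟨y, hy, rfl⟩
  rw [hK, Submodule.mem_bot, kap_apply] at h1
  have h2 : nn ρ T3 y - nn ρ T5 y = -nn ρ T1 (nn ρ T2 (nn ρ T3 y)) :=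
    eq_neg_of_add_eq_zero_left h1
  rw [h2]
  exact W.neg_mem (X.m1 (X.m2 (X.m3 hy)))

theorem inv5 {y : V} (hy : y ∈ E4 ρ T1 T2 T3 T4 W) : ρ T5⁻¹ y = y - nn ρ T5 y := by
  have h1 : ρ T5 (nn ρ T5 y) = nn ρ T5 y := X.f55 _ (X.m5 hy)
  have h2 : ρ T5 (y - nn ρ T5 y) = y := by rw [map_sub, h1, nn_apply]; abel
  calc ρ T5⁻¹ y = ρ T5⁻¹ (ρ T5 (y - nn ρ T5 y)) := by rw [h2]
    _ = _ := rho_inv _ _ _

theorem inv3 {y : V} (hy : y ∈ E4 ρ T1 T2 T3 T4 W) : ρ T3⁻¹ y = y - nn ρ T3 y := by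
  have h1 : ρ T3 (nn ρ T3 y) = nn ρ T3 y := X.f33 _ (X.m3 hy)
  have h2 : ρ T3 (y - nn ρ T3 y) = y := by rw [map_sub, h1, nn_apply]; abel
  calc ρ T3⁻¹ y = ρ T3⁻¹ (ρ T3 (y - nn ρ T3 y)) := by rw [h2]
    _ = _ := rho_inv _ _ _

/-- The cleaned form. -/
theorem clean' (hK : KK ρ T1 T2 T3 T4 T5 W = ⊥) {y : V} (hy : y ∈ E4 ρ T1 T2 T3 T4 W) :
    ρ (T3 * T5⁻¹) y - y ∈ W ∧ ρ (T5 * T3⁻¹) y - y ∈ W := by
  have h := X.clean hK hy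
  constructor
  · have h1 : ρ (T3 * T5⁻¹) y - y = nn ρ T3 y - nn ρ T5 y := by
      rw [rho_mul, X.inv5 hy, map_sub, X.f35 _ (X.m5 hy)]
      simp only [nn_apply]
      abel
    rw [h1]
    exact h
  · have h1 : ρ (T5 * T3⁻¹) y - y = -(nn ρ T3 y - nn ρ T5 y) := by
      rw [rho_mul, X.inv3 hy, map_sub, X.f53 _ (X.m3 hy)]
      simp only [nn_apply]
      abel
    rw [h1]
    exact W.neg_mem h

/-- The first word: `E_5` in terms of `W`. -/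
theorem E5_eq : E5 ρ T1 T2 T3 T4 T5 W =
    mv ρ (T4 * T5 * (T3 * T4) * (T2 * T3) * (T1 * T2) *
      (T1 * (T3 * T4 * T5 * T3 * T4 * T3))) W := by
  have h1 : T1 * (T3 * T4 * T5 * T3 * T4 * T3) ∈ fx ρ W :=
    mul_mem X.pr.fA (mul_mem (mul_mem (mul_mem (mul_mem (mul_mem X.f3 X.f4) X.f5) X.f3) X.f4)
      X.f3)
  rw [mv_of_fx h1, mv_mul, mv_mul, mv_mul]
  rfl

omit X in
/-- What commutes with `T3`, `T4`, `T5` and fixes `E_5` fixes `E_3`. -/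
theorem E3_of_E5 {x : Γ} (hx : x ∈ fx ρ (E5 ρ T1 T2 T3 T4 T5 W)) (h3 : Commute x T3)
    (h4 : Commute x T4) (h5 : Commute x T5) : x ∈ fx ρ (E3 ρ T1 T2 T3 W) := by
  have h6 : E5 ρ T1 T2 T3 T4 T5 W = mv ρ (T4 * T5 * (T3 * T4)) (E3 ρ T1 T2 T3 W) := by
    rw [mv_mul]
    rfl
  have h7 : Commute x (T4 * T5 * (T3 * T4)) := (h4.mul_right h5).mul_right (h3.mul_right h4)
  rw [h6, mem_fx_mv, mul_assoc, h7.eq, inv_mul_cancel_left] at hx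
  exact hx

end Cfg

end Pool.MP_59b15d_al.H93E
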