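import Mathlib
import Pool.Agent.H.MP_59b15d_al.h93e.Ex

set_option autoImplicit false

/-!
# The standard generators and the two operations on exact families
-/

namespace Pool.MP_59b15d_al.H93E

open Module Pool.MP_59b15d_al.H95E

variable {F V Γ : Type*} [Field F] [AddCommGroup V] [Module F V] [Group Γ]
  {ρ : Γ →* Module.End F V}

/-- The relations between the twists `A i`, `B i` of the handles `i < g`, the twists `C i` joining
the handles `i` and `i + 1`, and the exchanges `S i` of the handles `i` and `i + 1`. -/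
structure Lk (g : ℕ) (A B C S : ℕ → Γ) : Prop where
  AA : ∀ i j, Commute (A i) (A j)
  AC : ∀ i j, Commute (A i) (C j)
  CC : ∀ i j, Commute (C i) (C j)
  AB : ∀ i j, i ≠ j → Commute (A i) (B j)
  BB : ∀ i j, Commute (B i) (B j)
  BC : ∀ i j, i ≠ j → i ≠ j + 1 → Commute (B i) (C j)
  brA : ∀ i, A i * B i * A i = B i * A i * B i
  brC : ∀ i, i + 1 < g → B i * C i * B i = C i * B i * C i
  brC' : ∀ i, i + 1 < g → B (i + 1) * C i * B (i + 1) = C i * B (i + 1) * C i
  SA : ∀ i, i + 1 < g → S i * A i = A (i + 1) * S i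
  SA' : ∀ i, i + 1 < g → S i * A (i + 1) = A i * S i
  SB : ∀ i, i + 1 < g → S i * B i = B (i + 1) * S i
  SB' : ∀ i, i + 1 < g → S i * B (i + 1) = B i * S i
  SAo : ∀ i j, j ≠ i → j ≠ i + 1 → Commute (S i) (A j)
  SBo : ∀ i j, j ≠ i → j ≠ i + 1 → Commute (S i) (B j)
  SCo : ∀ i j, j + 1 ≠ i → j ≠ i → j ≠ i + 1 → Commute (S i) (C j)
  SSC : ∀ i, i + 2 < g → S i * S (i + 1) * C i = C (i + 1) * S i * S (i + 1)
  SSC' : ∀ i, i + 2 < g → S (i + 1) * S i * C (i + 1) = C i * S (i + 1) * S i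
  gar : ∀ i, i + 1 < g →
    B i * A i * (C i * B i) * (B (i + 1) * C i) * (A (i + 1) * B (i + 1)) *
      (A (i + 1) * (C i * B i * A i * C i * B i * C i)) =
    S i * ((A i * B i) ^ 3 * (A (i + 1) * B (i + 1)) ^ 3)
  Cout : ∀ i, g ≤ i + 1 → C i = 1

namespace Lk

variable {g : ℕ} {A B C S : ℕ → Γ} (L : Lk g A B C S)
include L

/-- The chain `A (p + 1), B (p + 1), C p, B p, A p`. -/
theorem ch5 {p : ℕ} (hp : p + 1 < g) : Ch5 (A (p + 1)) (B (p + 1)) (C p) (B p) (A p) where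
  b12 := L.brA _
  b23 := L.brC' p hp
  b34 := (L.brC p hp).symm
  b45 := (L.brA p).symm
  c13 := L.AC _ _
  c14 := L.AB _ _ (by omega)
  c15 := L.AA _ _
  c24 := L.BB _ _
  c25 := (L.AB _ _ (by omega)).symm
  c35 := (L.AC _ _).symm

end Lk

/-- The subspace `W` is exact for the curves of the last `m` handles. -/
structure Ex (ρ : Γ →* Module.End F V) (A B C S : ℕ → Γ) (g m : ℕ) (W : Submodule F V) :
    Prop where
  fA : ∀ i, A i ∈ fx ρ W
  fC : ∀ i, C i ∈ fx ρ W
  fB : ∀ i, i + m < g → B i ∈ fx ρ W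
  sS : ∀ i, g ≤ i + m → i + 1 < g → S i ∈ sb ρ W
  sI : ∀ i, g ≤ i + m → i < g → (A i * B i) ^ 3 ∈ sb ρ W
  ii : ∀ i, g ≤ i + m → i < g → ∀ w ∈ W, nn ρ (B i) w ∈ mv ρ (A i * B i) W

namespace Ex

variable {g m : ℕ} {A B C S : ℕ → Γ} {W : Submodule F V}

/-- It suffices to have `sI` and `ii` at one of the last `m` handles. -/
theorem mk' (L : Lk g A B C S) (fA : ∀ i, A i ∈ fx ρ W) (fC : ∀ i, C i ∈ fx ρ W)
    (fB : ∀ i, i + m < g → B i ∈ fx ρ W)
    (sS : ∀ i, g ≤ i + m → i + 1 < g → S i ∈ sb ρ W) (k : ℕ) (hk : g ≤ k + m) (hk' : k < g)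
    (sI : (A k * B k) ^ 3 ∈ sb ρ W)
    (ii : ∀ w ∈ W, nn ρ (B k) w ∈ mv ρ (A k * B k) W) : Ex ρ A B C S g m W := by
  -- one step to the right
  have up : ∀ i, g ≤ i + m → i + 1 < g → (A i * B i) ^ 3 ∈ sb ρ W →
      (∀ w ∈ W, nn ρ (B i) w ∈ mv ρ (A i * B i) W) →
      (A (i + 1) * B (i + 1)) ^ 3 ∈ sb ρ W ∧
        ∀ w ∈ W, nn ρ (B (i + 1)) w ∈ mv ρ (A (i + 1) * B (i + 1)) W := by
    intro i h1 h2 h3 h4
    have hS := sS i h1 h2
    have e1 : A (i + 1) * B (i + 1) * S i = S i * (A i * B i) := by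
      rw [mul_assoc, ← L.SB i h2, ← mul_assoc, ← L.SA i h2, mul_assoc]
    have e2 : A (i + 1) * B (i + 1) = S i * (A i * B i) * (S i)⁻¹ := eq_mul_inv_of_mul_eq e1
    constructor
    · rw [e2, conj_pow]
      exact mul_mem (mul_mem hS h3) (inv_mem hS)
    · have h5 := nn_mv ρ (L.SB i h2).symm h4
      rwa [← mv_mul, ← e1, mv_mul, mem_sb.1 hS] at h5
  have dn : ∀ i, g ≤ i + m → i + 1 < g → (A (i + 1) * B (i + 1)) ^ 3 ∈ sb ρ W →
      (∀ w ∈ W, nn ρ (B (i + 1)) w ∈ mv ρ (A (i + 1) * B (i + 1)) W) →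
      (A i * B i) ^ 3 ∈ sb ρ W ∧ ∀ w ∈ W, nn ρ (B i) w ∈ mv ρ (A i * B i) W := by
    intro i h1 h2 h3 h4
    have hS := sS i h1 h2
    have e1 : A i * B i * S i = S i * (A (i + 1) * B (i + 1)) := by
      rw [mul_assoc, ← L.SB' i h2, ← mul_assoc, ← L.SA' i h2, mul_assoc]
    have e2 : A i * B i = S i * (A (i + 1) * B (i + 1)) * (S i)⁻¹ := eq_mul_inv_of_mul_eq e1
    constructor
    · rw [e2, conj_pow]
      exact mul_mem (mul_mem hS h3) (inv_mem hS)
    · have h5 := nn_mv ρ (L.SB' i h2).symm h4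
      rwa [← mv_mul, ← e1, mv_mul, mem_sb.1 hS] at h5
  have upn : ∀ n, k + n < g → (A (k + n) * B (k + n)) ^ 3 ∈ sb ρ W ∧
      ∀ w ∈ W, nn ρ (B (k + n)) w ∈ mv ρ (A (k + n) * B (k + n)) W := by
    intro n
    induction n with
    | zero => exact fun _ => ⟨sI, ii⟩
    | succ n ih =>
      intro hn
      have h1 := ih (by omega)
      exact up (k + n) (by omega) (by omega) h1.1 h1.2
  have dnn : ∀ n, ∀ i, i + n = k → g ≤ i + m → (A i * B i) ^ 3 ∈ sb ρ W ∧
      ∀ w ∈ W, nn ρ (B i) w ∈ mv ρ (A i * B i) W := by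
    intro n
    induction n with
    | zero =>
      rintro i rfl _
      exact ⟨sI, ii⟩
    | succ n ih =>
      intro i hi h1
      have h2 := ih (i + 1) (by omega) (by omega)
      exact dn i h1 (by omega) h2.1 h2.2
  have all : ∀ i, g ≤ i + m → i < g → (A i * B i) ^ 3 ∈ sb ρ W ∧
      ∀ w ∈ W, nn ρ (B i) w ∈ mv ρ (A i * B i) W := by
    intro i h1 h2
    rcases le_total i k with h3 | h3
    · exact dnn (k - i) i (by omega) h1
    · have h4 := upn (i - k) (by omega)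
      rwa [show k + (i - k) = i by omega] at h4
  exact ⟨fA, fC, fB, sS, fun i h1 h2 => (all i h1 h2).1, fun i h1 h2 => (all i h1 h2).2⟩

/-- The data at a handle among the last `m`. -/
theorem pr (L : Lk g A B C S) (E : Ex ρ A B C S g m W) {i : ℕ} (h1 : g ≤ i + m) (h2 : i < g) :
    Pr ρ (A i) (B i) W :=
  ⟨L.brA i, E.fA i, E.ii i h1 h2, E.sI i h1 h2⟩

/-- The first operation. -/
theorem cap (L : Lk g A B C S) (E : Ex ρ A B C S g (m + 1) W) {q : ℕ} (hq : q + (m + 1) = g) :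
    Ex ρ A B C S g m (W ⊓ mv ρ (A q * B q) W) := by
  have hle : ∀ {x : Γ}, x ∈ fx ρ W → x ∈ fx ρ (W ⊓ mv ρ (A q * B q) W) :=
    fun hx => fx_anti ρ inf_le_left hx
  have P : Pr ρ (A q) (B q) W := E.pr L (by omega) (by omega)
  have cA : ∀ i, i ≠ q → Commute (A i) (A q * B q) :=
    fun i hi => (L.AA i q).mul_right (L.AB i q hi)
  have cB : ∀ i, i ≠ q → Commute (B i) (A q * B q) :=
    fun i hi => (L.AB q i (Ne.symm hi)).symm.mul_right (L.BB i q)
  have hs : ∀ {x : Γ}, x ∈ sb ρ W → Commute x (A q * B q) →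
      x ∈ sb ρ (W ⊓ mv ρ (A q * B q) W) := by
    intro x hx hc
    rw [mem_sb, mv_inf, mem_sb.1 hx, mem_sb.1 (sb_mv_of_comm hx hc)]
  refine ⟨fun i => hle (E.fA i), fun i => hle (E.fC i), ?_, ?_, ?_, ?_⟩
  · intro i hi
    by_cases h1 : i = q
    · rw [h1]
      exact fx_anti ρ inf_le_right P.fB
    · exact hle (E.fB i (by omega))
  · intro i h1 h2
    refine hs (E.sS i (by omega) h2) ?_
    exact (L.SAo i q (by omega) (by omega)).mul_right (L.SBo i q (by omega) (by omega))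
  · intro i h1 h2
    refine hs (E.sI i (by omega) h2) ?_
    exact ((cA i (by omega)).mul_left (cB i (by omega))).pow_left 3
  · intro i h1 h2 w hw
    have hc : Commute (A i * B i) (A q * B q) := (cA i (by omega)).mul_left (cB i (by omega))
    rw [mv_inf]
    refine ⟨E.ii i (by omega) h2 w hw.1, ?_⟩
    have h3 := nn_mv ρ (cB i (by omega)).eq (E.ii i (by omega) h2) w hw.2
    rwa [← mv_mul, ← hc.eq, mv_mul] at h3

/-- The chain at the first of the last `m + 1` handles. -/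
theorem cfg (L : Lk g A B C S) (E : Ex ρ A B C S g (m + 1) W) {p : ℕ} (hp : p + (m + 2) = g)
    (h0 : W ⊓ mv ρ (A (p + 1) * B (p + 1)) W = ⊥) :
    Cfg ρ (A (p + 1)) (B (p + 1)) (C p) (B p) (A p) W where
  ch := L.ch5 (by omega)
  pr := E.pr L (by omega) (by omega)
  f3 := E.fC p
  f4 := E.fB p (by omega)
  f5 := E.fA p
  zero := h0

/-- `E_5` is the translate by the exchange. -/
theorem E5_eq_S (L : Lk g A B C S) (E : Ex ρ A B C S g (m + 1) W) {p : ℕ}
    (hp : p + (m + 2) = g) (h0 : W ⊓ mv ρ (A (p + 1) * B (p + 1)) W = ⊥) :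
    E5 ρ (A (p + 1)) (B (p + 1)) (C p) (B p) (A p) W = mv ρ (S p) W := by
  rw [(E.cfg L hp h0).E5_eq, L.gar p (by omega)]
  apply mv_of_sb
  refine mul_mem (fx_le_sb ρ W ?_) (E.sI (p + 1) (by omega) (by omega))
  exact pow_mem (mul_mem (E.fA p) (E.fB p (by omega))) 3

/-- The exchanges of the first handles fix `W`. -/
theorem fS (L : Lk g A B C S) (E : Ex ρ A B C S g m W) {i : ℕ} (hi : i + 1 + m < g) :
    S i ∈ fx ρ W := by
  have h1 := L.gar i (by omega)
  have h2 := eq_mul_inv_of_mul_eq h1.symm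
  rw [h2]
  have a := E.fA i
  have a' := E.fA (i + 1)
  have b := E.fB i (by omega)
  have b' := E.fB (i + 1) (by omega)
  have c := E.fC i
  have e1 := mul_mem (mul_mem (mul_mem (mul_mem b a) (mul_mem c b)) (mul_mem b' c))
    (mul_mem a' b')
  have e2 := mul_mem a' (mul_mem (mul_mem (mul_mem (mul_mem (mul_mem c b) a) c) b) c)
  exact mul_mem (mul_mem e1 e2)
    (inv_mem (mul_mem (pow_mem (mul_mem a b) 3) (pow_mem (mul_mem a' b') 3)))

/-- The second operation. -/
theorem kap (L : Lk g A B C S) (E : Ex ρ A B C S g (m + 1) W) {p : ℕ} (hp : p + (m + 2) = g)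
    (h0 : W ⊓ mv ρ (A (p + 1) * B (p + 1)) W = ⊥) :
    Ex ρ A B C S g m (KK ρ (A (p + 1)) (B (p + 1)) (C p) (B p) (A p) W) := by
  have X := E.cfg L hp h0
  have cA : ∀ i, i ≠ p → i ≠ p + 1 → Commute (A i) (A (p + 1)) ∧ Commute (A i) (B (p + 1)) ∧
      Commute (A i) (C p) ∧ Commute (A i) (B p) ∧ Commute (A i) (A p) := fun i h1 h2 =>
    ⟨L.AA _ _, L.AB _ _ h2, L.AC _ _, L.AB _ _ h1, L.AA _ _⟩
  have cB : ∀ i, i ≠ p → i ≠ p + 1 → Commute (B i) (A (p + 1)) ∧ Commute (B i) (B (p + 1)) ∧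
      Commute (B i) (C p) ∧ Commute (B i) (B p) ∧ Commute (B i) (A p) := fun i h1 h2 =>
    ⟨(L.AB _ _ (Ne.symm h2)).symm, L.BB _ _, L.BC _ _ h1 h2, L.BB _ _,
      (L.AB _ _ (Ne.symm h1)).symm⟩
  -- the exchange
  have hE5 : ∀ {x : Γ}, x ∈ fx ρ (mv ρ (S p) W) →
      x ∈ fx ρ (E5 ρ (A (p + 1)) (B (p + 1)) (C p) (B p) (A p) W) := by
    intro x hx
    rw [E.E5_eq_S L hp h0]
    exact hx
  refine ⟨?_, ?_, ?_, ?_, ?_, ?_⟩
  · intro i
    by_cases h1 : i = p
    · rw [h1]; exact X.K5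
    · by_cases h2 : i = p + 1
      · rw [h2]; exact X.K1
      · obtain ⟨c1, c2, c3, c4, c5⟩ := cA i h1 h2
        exact Cfg.fK_comm (E.fA i) c1 c2 c3 c4 c5
  · intro i
    by_cases h1 : i = p
    · rw [h1]; exact X.K3
    · by_cases h2 : i = p + 1
      · -- the next `C`
        subst h2
        by_cases h3 : g ≤ p + 1 + 1
        · rw [L.Cout _ h3]; exact one_mem _
        · have h4 : p + 2 < g := by omega
          have h5 : C (p + 1) ∈ fx ρ (mv ρ (S p) W) := by
            have e1 : C (p + 1) * S p = S p * (S (p + 1) * C p * (S (p + 1))⁻¹) := by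
              have e2 := L.SSC p h4
              calc C (p + 1) * S p = C (p + 1) * S p * S (p + 1) * (S (p + 1))⁻¹ := by group
                _ = _ := by rw [← e2]; group
            refine fx_mv_of_eq ?_ e1
            have h6 : S (p + 1) ∈ sb ρ W := E.sS (p + 1) (by omega) (by omega)
            have h7 : C p ∈ fx ρ (mv ρ (S (p + 1))⁻¹ W) := by
              rw [mem_sb.1 (inv_mem h6)]
              exact E.fC p
            rw [mem_fx_mv, inv_inv] at h7
            exact h7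
          have h6 := hE5 h5
          refine X.fK_of (E.fC _) (Cfg.E3_of_E5 h6 (L.CC _ _) ?_ (L.AC _ _).symm) h6
          exact (L.BC p (p + 1) (by omega) (by omega)).symm
      · by_cases h3 : i + 1 = p
        · -- the previous `C`
          subst h3
          have h4 : i + 2 < g := by omega
          have h5 : C i ∈ fx ρ (mv ρ (S (i + 1)) W) := by
            have e1 : C i * S (i + 1) = S (i + 1) * (S i * C (i + 1) * (S i)⁻¹) := by
              have e2 := L.SSC' i h4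
              calc C i * S (i + 1) = C i * S (i + 1) * S i * (S i)⁻¹ := by group
                _ = _ := by rw [← e2]; group
            refine fx_mv_of_eq ?_ e1
            have h6 : S i ∈ fx ρ W := E.fS L (by omega)
            exact mul_mem (mul_mem h6 (E.fC _)) (inv_mem h6)
          refine X.fK_of (E.fC _) ?_ (hE5 h5)
          have h6 : Commute (C i) (B (i + 1 + 1) * C (i + 1) * (A (i + 1 + 1) * B (i + 1 + 1))) :=
            (((L.BC _ _ (by omega) (by omega)).symm.mul_right (L.CC _ _)).mul_right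
              ((L.AC _ _).symm.mul_right (L.BC _ _ (by omega) (by omega)).symm))
          rw [E3, E2, ← mv_mul]
          exact fx_mv_of_comm (E.fC _) h6
        · exact Cfg.fK_comm (E.fC i) (L.AC _ _).symm (L.BC _ _ (by omega) (by omega)).symm
            (L.CC _ _) (L.BC _ _ (by omega) (by omega)).symm (L.AC _ _).symm
  · intro i hi
    by_cases h1 : i = p
    · rw [h1]; exact X.K4
    · by_cases h2 : i = p + 1
      · rw [h2]; exact X.K2
      · obtain ⟨c1, c2, c3, c4, c5⟩ := cB i h1 h2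
        exact Cfg.fK_comm (E.fB i (by omega)) c1 c2 c3 c4 c5
  · intro i h1 h2
    exact Cfg.sK_comm (E.sS i (by omega) h2) (L.SAo _ _ (by omega) (by omega))
      (L.SBo _ _ (by omega) (by omega)) (L.SCo _ _ (by omega) (by omega) (by omega))
      (L.SBo _ _ (by omega) (by omega)) (L.SAo _ _ (by omega) (by omega))
  · intro i h1 h2
    obtain ⟨a1, a2, a3, a4, a5⟩ := cA i (by omega) (by omega)
    obtain ⟨b1, b2, b3, b4, b5⟩ := cB i (by omega) (by omega)
    exact Cfg.sK_comm (E.sI i (by omega) h2) ((a1.mul_left b1).pow_left 3)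
      ((a2.mul_left b2).pow_left 3) ((a3.mul_left b3).pow_left 3) ((a4.mul_left b4).pow_left 3)
      ((a5.mul_left b5).pow_left 3)
  · intro i h1 h2
    obtain ⟨a1, a2, a3, a4, a5⟩ := cA i (by omega) (by omega)
    obtain ⟨b1, b2, b3, b4, b5⟩ := cB i (by omega) (by omega)
    exact Cfg.iiK (E.ii i (by omega) h2) a1 a2 a3 a4 a5 b1 b2 b3 b4 b5

/-- The result of the two operations if there is nothing exact for `m`. -/
theorem zero (L : Lk g A B C S) (E : Ex ρ A B C S g (m + 1) W) {q : ℕ} (hq : q + (m + 1) = g)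
    (EV : ∀ W' : Submodule F V, Ex ρ A B C S g m W' → W' = ⊥) :
    W ⊓ mv ρ (A q * B q) W = ⊥ := EV _ (E.cap L hq)

/-- **Clean.** If nothing is exact for `m`, then `(C_p A_p⁻¹ - 1) (w W) ≤ W` for the handle
`p + 1`, the first of the last `m + 1`, and `w` the word which moves the curve of `A (p + 1)` to
that of `B p`. -/
theorem clean (L : Lk g A B C S) (E : Ex ρ A B C S g (m + 1) W) {p : ℕ} (hp : p + (m + 2) = g)
    (EV : ∀ W' : Submodule F V, Ex ρ A B C S g m W' → W' = ⊥) :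
    ∀ y ∈ mv ρ (C p * B p * (B (p + 1) * C p) * (A (p + 1) * B (p + 1))) W,
      ρ (C p * (A p)⁻¹) y - y ∈ W ∧ ρ (A p * (C p)⁻¹) y - y ∈ W := by
  have h0 := E.zero L (q := p + 1) (by omega) EV
  have X := E.cfg L hp h0
  have hK := EV _ (E.kap L hp h0)
  intro y hy
  rw [← Cfg.E4_eq] at hy
  exact X.clean' hK hy

end Ex

end Pool.MP_59b15d_al.H93E
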