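import Mathlib

set_option autoImplicit false
set_option linter.unusedSimpArgs false

/-!
# The Garside element of a chain of five twists, on the four generators
-/

namespace Pool.MP_59b15d_al.H93E

section

variable {G : Type*} [Group G]

/-- The values of the twists of two neighbouring handles. -/
structure Vals (A0 B0 C0 A1 B1 S : MulAut G) (p q r s : G) : Prop where
  A0p : A0 p = p
  A0q : A0 q = q * p⁻¹
  A0r : A0 r = r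
  A0s : A0 s = s
  B0p : B0 p = p * q
  B0q : B0 q = q
  B0r : B0 r = r
  B0s : B0 s = s
  C0p : C0 p = p
  C0q : C0 q = q * p⁻¹ * q⁻¹ * r * q
  C0r : C0 r = q * p⁻¹ * q⁻¹ * r * q * p * q⁻¹
  C0s : C0 s = s * r⁻¹ * q * p * q⁻¹
  A1p : A1 p = p
  A1q : A1 q = q
  A1r : A1 r = r
  A1s : A1 s = s * r⁻¹
  B1p : B1 p = p
  B1q : B1 q = q
  B1r : B1 r = r * s
  B1s : B1 s = s
  Sp : S p = p * q * p⁻¹ * q⁻¹ * r * q * p * q⁻¹ * p⁻¹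
  Sq : S q = p * q * p⁻¹ * q⁻¹ * s * q * p * q⁻¹ * p⁻¹
  Sr : S r = p
  Ss : S s = q

variable {A0 B0 C0 A1 B1 S : MulAut G} {p q r s : G}

theorem garD_p (H : Vals A0 B0 C0 A1 B1 S p q r s) :
    B0 (A0 (C0 (B0 (B1 (C0 (A1 (B1 (A1 (C0 (B0 (A0 (C0 (B0 (C0 (p))))))))))))))) =
      p * q * p⁻¹ * q⁻¹ * r * s * r⁻¹ * s⁻¹ * r⁻¹ * q * p * q⁻¹ * p⁻¹ := by
  have e0 : C0 (p) = p := by
    simp only [map_mul, map_inv, H.C0p, H.C0q, H.C0r, H.C0s]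
    try group
  have e1 : B0 (p) = p * q := by
    simp only [map_mul, map_inv, H.B0p, H.B0q, H.B0r, H.B0s]
    try group
  have e2 : C0 (p * q) = p * q * p⁻¹ * q⁻¹ * r * q := by
    simp only [map_mul, map_inv, H.C0p, H.C0q, H.C0r, H.C0s]
    try group
  have e3 : A0 (p * q * p⁻¹ * q⁻¹ * r * q) = p * q * p⁻¹ * q⁻¹ * r * q * p⁻¹ := by
    simp only [map_mul, map_inv, H.A0p, H.A0q, H.A0r, H.A0s]
    try group
  have e4 : B0 (p * q * p⁻¹ * q⁻¹ * r * q * p⁻¹) = p * q * p⁻¹ * q⁻¹ * r * p⁻¹ := by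
    simp only [map_mul, map_inv, H.B0p, H.B0q, H.B0r, H.B0s]
    try group
  have e5 : C0 (p * q * p⁻¹ * q⁻¹ * r * p⁻¹) = p * q * p⁻¹ * q⁻¹ * r * p⁻¹ := by
    simp only [map_mul, map_inv, H.C0p, H.C0q, H.C0r, H.C0s]
    try group
  have e6 : A1 (p * q * p⁻¹ * q⁻¹ * r * p⁻¹) = p * q * p⁻¹ * q⁻¹ * r * p⁻¹ := by
    simp only [map_mul, map_inv, H.A1p, H.A1q, H.A1r, H.A1s]
    try group
  have e7 : B1 (p * q * p⁻¹ * q⁻¹ * r * p⁻¹) = p * q * p⁻¹ * q⁻¹ * r * s * p⁻¹ := by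
    simp only [map_mul, map_inv, H.B1p, H.B1q, H.B1r, H.B1s]
    try group
  have e8 : A1 (p * q * p⁻¹ * q⁻¹ * r * s * p⁻¹) = p * q * p⁻¹ * q⁻¹ * r * s * r⁻¹ * p⁻¹ := by
    simp only [map_mul, map_inv, H.A1p, H.A1q, H.A1r, H.A1s]
    try group
  have e9 : C0 (p * q * p⁻¹ * q⁻¹ * r * s * r⁻¹ * p⁻¹) = p * q * p⁻¹ * q⁻¹ * r * s * r⁻¹ * r⁻¹ * q * p * q⁻¹ * p⁻¹ := by
    simp only [map_mul, map_inv, H.C0p, H.C0q, H.C0r, H.C0s]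
    try group
  have e10 : B1 (p * q * p⁻¹ * q⁻¹ * r * s * r⁻¹ * r⁻¹ * q * p * q⁻¹ * p⁻¹) = p * q * p⁻¹ * q⁻¹ * r * s * r⁻¹ * s⁻¹ * r⁻¹ * q * p * q⁻¹ * p⁻¹ := by
    simp only [map_mul, map_inv, H.B1p, H.B1q, H.B1r, H.B1s]
    try group
  have e11 : B0 (p * q * p⁻¹ * q⁻¹ * r * s * r⁻¹ * s⁻¹ * r⁻¹ * q * p * q⁻¹ * p⁻¹) = p * q * p⁻¹ * q⁻¹ * r * s * r⁻¹ * s⁻¹ * r⁻¹ * q * p * q⁻¹ * p⁻¹ := by
    simp only [map_mul, map_inv, H.B0p, H.B0q, H.B0r, H.B0s]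
    try group
  have e12 : C0 (p * q * p⁻¹ * q⁻¹ * r * s * r⁻¹ * s⁻¹ * r⁻¹ * q * p * q⁻¹ * p⁻¹) = p * q * p⁻¹ * q⁻¹ * r * s * r⁻¹ * s⁻¹ * r⁻¹ * q * p * q⁻¹ * p⁻¹ := by
    simp only [map_mul, map_inv, H.C0p, H.C0q, H.C0r, H.C0s]
    try group
  have e13 : A0 (p * q * p⁻¹ * q⁻¹ * r * s * r⁻¹ * s⁻¹ * r⁻¹ * q * p * q⁻¹ * p⁻¹) = p * q * p⁻¹ * q⁻¹ * r * s * r⁻¹ * s⁻¹ * r⁻¹ * q * p * q⁻¹ * p⁻¹ := by
    simp only [map_mul, map_inv, H.A0p, H.A0q, H.A0r, H.A0s]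
    try group
  have e14 : B0 (p * q * p⁻¹ * q⁻¹ * r * s * r⁻¹ * s⁻¹ * r⁻¹ * q * p * q⁻¹ * p⁻¹) = p * q * p⁻¹ * q⁻¹ * r * s * r⁻¹ * s⁻¹ * r⁻¹ * q * p * q⁻¹ * p⁻¹ := by
    simp only [map_mul, map_inv, H.B0p, H.B0q, H.B0r, H.B0s]
    try group
  rw [e0, e1, e2, e3, e4, e5, e6, e7, e8, e9, e10, e11, e12, e13, e14]

theorem garD_q (H : Vals A0 B0 C0 A1 B1 S p q r s) :
    B0 (A0 (C0 (B0 (B1 (C0 (A1 (B1 (A1 (C0 (B0 (A0 (C0 (B0 (C0 (q))))))))))))))) =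
      p * q * p⁻¹ * q⁻¹ * r * s⁻¹ * r⁻¹ * q * p * q⁻¹ * p⁻¹ := by
  have e0 : C0 (q) = q * p⁻¹ * q⁻¹ * r * q := by
    simp only [map_mul, map_inv, H.C0p, H.C0q, H.C0r, H.C0s]
    try group
  have e1 : B0 (q * p⁻¹ * q⁻¹ * r * q) = p⁻¹ * q⁻¹ * r * q := by
    simp only [map_mul, map_inv, H.B0p, H.B0q, H.B0r, H.B0s]
    try group
  have e2 : C0 (p⁻¹ * q⁻¹ * r * q) = p⁻¹ * q⁻¹ * r * q := by
    simp only [map_mul, map_inv, H.C0p, H.C0q, H.C0r, H.C0s]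
    try group
  have e3 : A0 (p⁻¹ * q⁻¹ * r * q) = q⁻¹ * r * q * p⁻¹ := by
    simp only [map_mul, map_inv, H.A0p, H.A0q, H.A0r, H.A0s]
    try group
  have e4 : B0 (q⁻¹ * r * q * p⁻¹) = q⁻¹ * r * p⁻¹ := by
    simp only [map_mul, map_inv, H.B0p, H.B0q, H.B0r, H.B0s]
    try group
  have e5 : C0 (q⁻¹ * r * p⁻¹) = p * q⁻¹ * p⁻¹ := by
    simp only [map_mul, map_inv, H.C0p, H.C0q, H.C0r, H.C0s]
    try group
  have e6 : A1 (p * q⁻¹ * p⁻¹) = p * q⁻¹ * p⁻¹ := by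
    simp only [map_mul, map_inv, H.A1p, H.A1q, H.A1r, H.A1s]
    try group
  have e7 : B1 (p * q⁻¹ * p⁻¹) = p * q⁻¹ * p⁻¹ := by
    simp only [map_mul, map_inv, H.B1p, H.B1q, H.B1r, H.B1s]
    try group
  have e8 : A1 (p * q⁻¹ * p⁻¹) = p * q⁻¹ * p⁻¹ := by
    simp only [map_mul, map_inv, H.A1p, H.A1q, H.A1r, H.A1s]
    try group
  have e9 : C0 (p * q⁻¹ * p⁻¹) = p * q⁻¹ * r⁻¹ * q * p * q⁻¹ * p⁻¹ := by
    simp only [map_mul, map_inv, H.C0p, H.C0q, H.C0r, H.C0s]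
    try group
  have e10 : B1 (p * q⁻¹ * r⁻¹ * q * p * q⁻¹ * p⁻¹) = p * q⁻¹ * s⁻¹ * r⁻¹ * q * p * q⁻¹ * p⁻¹ := by
    simp only [map_mul, map_inv, H.B1p, H.B1q, H.B1r, H.B1s]
    try group
  have e11 : B0 (p * q⁻¹ * s⁻¹ * r⁻¹ * q * p * q⁻¹ * p⁻¹) = p * s⁻¹ * r⁻¹ * q * p * q⁻¹ * p⁻¹ := by
    simp only [map_mul, map_inv, H.B0p, H.B0q, H.B0r, H.B0s]
    try group
  have e12 : C0 (p * s⁻¹ * r⁻¹ * q * p * q⁻¹ * p⁻¹) = p * q * p⁻¹ * q⁻¹ * r * s⁻¹ * r⁻¹ * q * p * q⁻¹ * p⁻¹ := by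
    simp only [map_mul, map_inv, H.C0p, H.C0q, H.C0r, H.C0s]
    try group
  have e13 : A0 (p * q * p⁻¹ * q⁻¹ * r * s⁻¹ * r⁻¹ * q * p * q⁻¹ * p⁻¹) = p * q * p⁻¹ * q⁻¹ * r * s⁻¹ * r⁻¹ * q * p * q⁻¹ * p⁻¹ := by
    simp only [map_mul, map_inv, H.A0p, H.A0q, H.A0r, H.A0s]
    try group
  have e14 : B0 (p * q * p⁻¹ * q⁻¹ * r * s⁻¹ * r⁻¹ * q * p * q⁻¹ * p⁻¹) = p * q * p⁻¹ * q⁻¹ * r * s⁻¹ * r⁻¹ * q * p * q⁻¹ * p⁻¹ := by
    simp only [map_mul, map_inv, H.B0p, H.B0q, H.B0r, H.B0s]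
    try group
  rw [e0, e1, e2, e3, e4, e5, e6, e7, e8, e9, e10, e11, e12, e13, e14]

theorem garD_r (H : Vals A0 B0 C0 A1 B1 S p q r s) :
    B0 (A0 (C0 (B0 (B1 (C0 (A1 (B1 (A1 (C0 (B0 (A0 (C0 (B0 (C0 (r))))))))))))))) =
      p * q * p⁻¹ * q⁻¹ * p⁻¹ := by
  have e0 : C0 (r) = q * p⁻¹ * q⁻¹ * r * q * p * q⁻¹ := by
    simp only [map_mul, map_inv, H.C0p, H.C0q, H.C0r, H.C0s]
    try group
  have e1 : B0 (q * p⁻¹ * q⁻¹ * r * q * p * q⁻¹) = p⁻¹ * q⁻¹ * r * q * p := by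
    simp only [map_mul, map_inv, H.B0p, H.B0q, H.B0r, H.B0s]
    try group
  have e2 : C0 (p⁻¹ * q⁻¹ * r * q * p) = p⁻¹ * q⁻¹ * r * q * p := by
    simp only [map_mul, map_inv, H.C0p, H.C0q, H.C0r, H.C0s]
    try group
  have e3 : A0 (p⁻¹ * q⁻¹ * r * q * p) = q⁻¹ * r * q := by
    simp only [map_mul, map_inv, H.A0p, H.A0q, H.A0r, H.A0s]
    try group
  have e4 : B0 (q⁻¹ * r * q) = q⁻¹ * r * q := by
    simp only [map_mul, map_inv, H.B0p, H.B0q, H.B0r, H.B0s]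
    try group
  have e5 : C0 (q⁻¹ * r * q) = q⁻¹ * r * q := by
    simp only [map_mul, map_inv, H.C0p, H.C0q, H.C0r, H.C0s]
    try group
  have e6 : A1 (q⁻¹ * r * q) = q⁻¹ * r * q := by
    simp only [map_mul, map_inv, H.A1p, H.A1q, H.A1r, H.A1s]
    try group
  have e7 : B1 (q⁻¹ * r * q) = q⁻¹ * r * s * q := by
    simp only [map_mul, map_inv, H.B1p, H.B1q, H.B1r, H.B1s]
    try group
  have e8 : A1 (q⁻¹ * r * s * q) = q⁻¹ * r * s * r⁻¹ * q := by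
    simp only [map_mul, map_inv, H.A1p, H.A1q, H.A1r, H.A1s]
    try group
  have e9 : C0 (q⁻¹ * r * s * r⁻¹ * q) = p * q⁻¹ * s * r⁻¹ * q := by
    simp only [map_mul, map_inv, H.C0p, H.C0q, H.C0r, H.C0s]
    try group
  have e10 : B1 (p * q⁻¹ * s * r⁻¹ * q) = p * q⁻¹ * r⁻¹ * q := by
    simp only [map_mul, map_inv, H.B1p, H.B1q, H.B1r, H.B1s]
    try group
  have e11 : B0 (p * q⁻¹ * r⁻¹ * q) = p * r⁻¹ * q := by
    simp only [map_mul, map_inv, H.B0p, H.B0q, H.B0r, H.B0s]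
    try group
  have e12 : C0 (p * r⁻¹ * q) = p * q * p⁻¹ := by
    simp only [map_mul, map_inv, H.C0p, H.C0q, H.C0r, H.C0s]
    try group
  have e13 : A0 (p * q * p⁻¹) = p * q * p⁻¹ * p⁻¹ := by
    simp only [map_mul, map_inv, H.A0p, H.A0q, H.A0r, H.A0s]
    try group
  have e14 : B0 (p * q * p⁻¹ * p⁻¹) = p * q * p⁻¹ * q⁻¹ * p⁻¹ := by
    simp only [map_mul, map_inv, H.B0p, H.B0q, H.B0r, H.B0s]
    try group
  rw [e0, e1, e2, e3, e4, e5, e6, e7, e8, e9, e10, e11, e12, e13, e14]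

theorem garD_s (H : Vals A0 B0 C0 A1 B1 S p q r s) :
    B0 (A0 (C0 (B0 (B1 (C0 (A1 (B1 (A1 (C0 (B0 (A0 (C0 (B0 (C0 (s))))))))))))))) =
      p * q⁻¹ * p⁻¹ := by
  have e0 : C0 (s) = s * r⁻¹ * q * p * q⁻¹ := by
    simp only [map_mul, map_inv, H.C0p, H.C0q, H.C0r, H.C0s]
    try group
  have e1 : B0 (s * r⁻¹ * q * p * q⁻¹) = s * r⁻¹ * q * p := by
    simp only [map_mul, map_inv, H.B0p, H.B0q, H.B0r, H.B0s]
    try group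
  have e2 : C0 (s * r⁻¹ * q * p) = s * r⁻¹ * q * p := by
    simp only [map_mul, map_inv, H.C0p, H.C0q, H.C0r, H.C0s]
    try group
  have e3 : A0 (s * r⁻¹ * q * p) = s * r⁻¹ * q := by
    simp only [map_mul, map_inv, H.A0p, H.A0q, H.A0r, H.A0s]
    try group
  have e4 : B0 (s * r⁻¹ * q) = s * r⁻¹ * q := by
    simp only [map_mul, map_inv, H.B0p, H.B0q, H.B0r, H.B0s]
    try group
  have e5 : C0 (s * r⁻¹ * q) = s * r⁻¹ * q := by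
    simp only [map_mul, map_inv, H.C0p, H.C0q, H.C0r, H.C0s]
    try group
  have e6 : A1 (s * r⁻¹ * q) = s * r⁻¹ * r⁻¹ * q := by
    simp only [map_mul, map_inv, H.A1p, H.A1q, H.A1r, H.A1s]
    try group
  have e7 : B1 (s * r⁻¹ * r⁻¹ * q) = r⁻¹ * s⁻¹ * r⁻¹ * q := by
    simp only [map_mul, map_inv, H.B1p, H.B1q, H.B1r, H.B1s]
    try group
  have e8 : A1 (r⁻¹ * s⁻¹ * r⁻¹ * q) = s⁻¹ * r⁻¹ * q := by
    simp only [map_mul, map_inv, H.A1p, H.A1q, H.A1r, H.A1s]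
    try group
  have e9 : C0 (s⁻¹ * r⁻¹ * q) = q * p⁻¹ * q⁻¹ * r * s⁻¹ * q * p⁻¹ := by
    simp only [map_mul, map_inv, H.C0p, H.C0q, H.C0r, H.C0s]
    try group
  have e10 : B1 (q * p⁻¹ * q⁻¹ * r * s⁻¹ * q * p⁻¹) = q * p⁻¹ * q⁻¹ * r * q * p⁻¹ := by
    simp only [map_mul, map_inv, H.B1p, H.B1q, H.B1r, H.B1s]
    try group
  have e11 : B0 (q * p⁻¹ * q⁻¹ * r * q * p⁻¹) = p⁻¹ * q⁻¹ * r * p⁻¹ := by
    simp only [map_mul, map_inv, H.B0p, H.B0q, H.B0r, H.B0s]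
    try group
  have e12 : C0 (p⁻¹ * q⁻¹ * r * p⁻¹) = q⁻¹ * p⁻¹ := by
    simp only [map_mul, map_inv, H.C0p, H.C0q, H.C0r, H.C0s]
    try group
  have e13 : A0 (q⁻¹ * p⁻¹) = p * q⁻¹ * p⁻¹ := by
    simp only [map_mul, map_inv, H.A0p, H.A0q, H.A0r, H.A0s]
    try group
  have e14 : B0 (p * q⁻¹ * p⁻¹) = p * q⁻¹ * p⁻¹ := by
    simp only [map_mul, map_inv, H.B0p, H.B0q, H.B0r, H.B0s]
    try group
  rw [e0, e1, e2, e3, e4, e5, e6, e7, e8, e9, e10, e11, e12, e13, e14]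

theorem garR_p (H : Vals A0 B0 C0 A1 B1 S p q r s) :
    S (A0 (B0 (A0 (B0 (A0 (B0 (A1 (B1 (A1 (B1 (A1 (B1 (p))))))))))))) =
      p * q * p⁻¹ * q⁻¹ * r * s * r⁻¹ * s⁻¹ * r⁻¹ * q * p * q⁻¹ * p⁻¹ := by
  have e0 : B1 (p) = p := by
    simp only [map_mul, map_inv, H.B1p, H.B1q, H.B1r, H.B1s]
    try group
  have e1 : A1 (p) = p := by
    simp only [map_mul, map_inv, H.A1p, H.A1q, H.A1r, H.A1s]
    try group
  have e2 : B1 (p) = p := by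
    simp only [map_mul, map_inv, H.B1p, H.B1q, H.B1r, H.B1s]
    try group
  have e3 : A1 (p) = p := by
    simp only [map_mul, map_inv, H.A1p, H.A1q, H.A1r, H.A1s]
    try group
  have e4 : B1 (p) = p := by
    simp only [map_mul, map_inv, H.B1p, H.B1q, H.B1r, H.B1s]
    try group
  have e5 : A1 (p) = p := by
    simp only [map_mul, map_inv, H.A1p, H.A1q, H.A1r, H.A1s]
    try group
  have e6 : B0 (p) = p * q := by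
    simp only [map_mul, map_inv, H.B0p, H.B0q, H.B0r, H.B0s]
    try group
  have e7 : A0 (p * q) = p * q * p⁻¹ := by
    simp only [map_mul, map_inv, H.A0p, H.A0q, H.A0r, H.A0s]
    try group
  have e8 : B0 (p * q * p⁻¹) = p * q * p⁻¹ := by
    simp only [map_mul, map_inv, H.B0p, H.B0q, H.B0r, H.B0s]
    try group
  have e9 : A0 (p * q * p⁻¹) = p * q * p⁻¹ * p⁻¹ := by
    simp only [map_mul, map_inv, H.A0p, H.A0q, H.A0r, H.A0s]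
    try group
  have e10 : B0 (p * q * p⁻¹ * p⁻¹) = p * q * p⁻¹ * q⁻¹ * p⁻¹ := by
    simp only [map_mul, map_inv, H.B0p, H.B0q, H.B0r, H.B0s]
    try group
  have e11 : A0 (p * q * p⁻¹ * q⁻¹ * p⁻¹) = p * q * p⁻¹ * q⁻¹ * p⁻¹ := by
    simp only [map_mul, map_inv, H.A0p, H.A0q, H.A0r, H.A0s]
    try group
  have e12 : S (p * q * p⁻¹ * q⁻¹ * p⁻¹) = p * q * p⁻¹ * q⁻¹ * r * s * r⁻¹ * s⁻¹ * r⁻¹ * q * p * q⁻¹ * p⁻¹ := by
    simp only [map_mul, map_inv, H.Sp, H.Sq, H.Sr, H.Ss]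
    try group
  rw [e0, e1, e2, e3, e4, e5, e6, e7, e8, e9, e10, e11, e12]

theorem garR_q (H : Vals A0 B0 C0 A1 B1 S p q r s) :
    S (A0 (B0 (A0 (B0 (A0 (B0 (A1 (B1 (A1 (B1 (A1 (B1 (q))))))))))))) =
      p * q * p⁻¹ * q⁻¹ * r * s⁻¹ * r⁻¹ * q * p * q⁻¹ * p⁻¹ := by
  have e0 : B1 (q) = q := by
    simp only [map_mul, map_inv, H.B1p, H.B1q, H.B1r, H.B1s]
    try group
  have e1 : A1 (q) = q := by
    simp only [map_mul, map_inv, H.A1p, H.A1q, H.A1r, H.A1s]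
    try group
  have e2 : B1 (q) = q := by
    simp only [map_mul, map_inv, H.B1p, H.B1q, H.B1r, H.B1s]
    try group
  have e3 : A1 (q) = q := by
    simp only [map_mul, map_inv, H.A1p, H.A1q, H.A1r, H.A1s]
    try group
  have e4 : B1 (q) = q := by
    simp only [map_mul, map_inv, H.B1p, H.B1q, H.B1r, H.B1s]
    try group
  have e5 : A1 (q) = q := by
    simp only [map_mul, map_inv, H.A1p, H.A1q, H.A1r, H.A1s]
    try group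
  have e6 : B0 (q) = q := by
    simp only [map_mul, map_inv, H.B0p, H.B0q, H.B0r, H.B0s]
    try group
  have e7 : A0 (q) = q * p⁻¹ := by
    simp only [map_mul, map_inv, H.A0p, H.A0q, H.A0r, H.A0s]
    try group
  have e8 : B0 (q * p⁻¹) = p⁻¹ := by
    simp only [map_mul, map_inv, H.B0p, H.B0q, H.B0r, H.B0s]
    try group
  have e9 : A0 (p⁻¹) = p⁻¹ := by
    simp only [map_mul, map_inv, H.A0p, H.A0q, H.A0r, H.A0s]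
    try group
  have e10 : B0 (p⁻¹) = q⁻¹ * p⁻¹ := by
    simp only [map_mul, map_inv, H.B0p, H.B0q, H.B0r, H.B0s]
    try group
  have e11 : A0 (q⁻¹ * p⁻¹) = p * q⁻¹ * p⁻¹ := by
    simp only [map_mul, map_inv, H.A0p, H.A0q, H.A0r, H.A0s]
    try group
  have e12 : S (p * q⁻¹ * p⁻¹) = p * q * p⁻¹ * q⁻¹ * r * s⁻¹ * r⁻¹ * q * p * q⁻¹ * p⁻¹ := by
    simp only [map_mul, map_inv, H.Sp, H.Sq, H.Sr, H.Ss]
    try group
  rw [e0, e1, e2, e3, e4, e5, e6, e7, e8, e9, e10, e11, e12]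

theorem garR_r (H : Vals A0 B0 C0 A1 B1 S p q r s) :
    S (A0 (B0 (A0 (B0 (A0 (B0 (A1 (B1 (A1 (B1 (A1 (B1 (r))))))))))))) =
      p * q * p⁻¹ * q⁻¹ * p⁻¹ := by
  have e0 : B1 (r) = r * s := by
    simp only [map_mul, map_inv, H.B1p, H.B1q, H.B1r, H.B1s]
    try group
  have e1 : A1 (r * s) = r * s * r⁻¹ := by
    simp only [map_mul, map_inv, H.A1p, H.A1q, H.A1r, H.A1s]
    try group
  have e2 : B1 (r * s * r⁻¹) = r * s * r⁻¹ := by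
    simp only [map_mul, map_inv, H.B1p, H.B1q, H.B1r, H.B1s]
    try group
  have e3 : A1 (r * s * r⁻¹) = r * s * r⁻¹ * r⁻¹ := by
    simp only [map_mul, map_inv, H.A1p, H.A1q, H.A1r, H.A1s]
    try group
  have e4 : B1 (r * s * r⁻¹ * r⁻¹) = r * s * r⁻¹ * s⁻¹ * r⁻¹ := by
    simp only [map_mul, map_inv, H.B1p, H.B1q, H.B1r, H.B1s]
    try group
  have e5 : A1 (r * s * r⁻¹ * s⁻¹ * r⁻¹) = r * s * r⁻¹ * s⁻¹ * r⁻¹ := by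
    simp only [map_mul, map_inv, H.A1p, H.A1q, H.A1r, H.A1s]
    try group
  have e6 : B0 (r * s * r⁻¹ * s⁻¹ * r⁻¹) = r * s * r⁻¹ * s⁻¹ * r⁻¹ := by
    simp only [map_mul, map_inv, H.B0p, H.B0q, H.B0r, H.B0s]
    try group
  have e7 : A0 (r * s * r⁻¹ * s⁻¹ * r⁻¹) = r * s * r⁻¹ * s⁻¹ * r⁻¹ := by
    simp only [map_mul, map_inv, H.A0p, H.A0q, H.A0r, H.A0s]
    try group
  have e8 : B0 (r * s * r⁻¹ * s⁻¹ * r⁻¹) = r * s * r⁻¹ * s⁻¹ * r⁻¹ := by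
    simp only [map_mul, map_inv, H.B0p, H.B0q, H.B0r, H.B0s]
    try group
  have e9 : A0 (r * s * r⁻¹ * s⁻¹ * r⁻¹) = r * s * r⁻¹ * s⁻¹ * r⁻¹ := by
    simp only [map_mul, map_inv, H.A0p, H.A0q, H.A0r, H.A0s]
    try group
  have e10 : B0 (r * s * r⁻¹ * s⁻¹ * r⁻¹) = r * s * r⁻¹ * s⁻¹ * r⁻¹ := by
    simp only [map_mul, map_inv, H.B0p, H.B0q, H.B0r, H.B0s]
    try group
  have e11 : A0 (r * s * r⁻¹ * s⁻¹ * r⁻¹) = r * s * r⁻¹ * s⁻¹ * r⁻¹ := by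
    simp only [map_mul, map_inv, H.A0p, H.A0q, H.A0r, H.A0s]
    try group
  have e12 : S (r * s * r⁻¹ * s⁻¹ * r⁻¹) = p * q * p⁻¹ * q⁻¹ * p⁻¹ := by
    simp only [map_mul, map_inv, H.Sp, H.Sq, H.Sr, H.Ss]
    try group
  rw [e0, e1, e2, e3, e4, e5, e6, e7, e8, e9, e10, e11, e12]

theorem garR_s (H : Vals A0 B0 C0 A1 B1 S p q r s) :
    S (A0 (B0 (A0 (B0 (A0 (B0 (A1 (B1 (A1 (B1 (A1 (B1 (s))))))))))))) =
      p * q⁻¹ * p⁻¹ := by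
  have e0 : B1 (s) = s := by
    simp only [map_mul, map_inv, H.B1p, H.B1q, H.B1r, H.B1s]
    try group
  have e1 : A1 (s) = s * r⁻¹ := by
    simp only [map_mul, map_inv, H.A1p, H.A1q, H.A1r, H.A1s]
    try group
  have e2 : B1 (s * r⁻¹) = r⁻¹ := by
    simp only [map_mul, map_inv, H.B1p, H.B1q, H.B1r, H.B1s]
    try group
  have e3 : A1 (r⁻¹) = r⁻¹ := by
    simp only [map_mul, map_inv, H.A1p, H.A1q, H.A1r, H.A1s]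
    try group
  have e4 : B1 (r⁻¹) = s⁻¹ * r⁻¹ := by
    simp only [map_mul, map_inv, H.B1p, H.B1q, H.B1r, H.B1s]
    try group
  have e5 : A1 (s⁻¹ * r⁻¹) = r * s⁻¹ * r⁻¹ := by
    simp only [map_mul, map_inv, H.A1p, H.A1q, H.A1r, H.A1s]
    try group
  have e6 : B0 (r * s⁻¹ * r⁻¹) = r * s⁻¹ * r⁻¹ := by
    simp only [map_mul, map_inv, H.B0p, H.B0q, H.B0r, H.B0s]
    try group
  have e7 : A0 (r * s⁻¹ * r⁻¹) = r * s⁻¹ * r⁻¹ := by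
    simp only [map_mul, map_inv, H.A0p, H.A0q, H.A0r, H.A0s]
    try group
  have e8 : B0 (r * s⁻¹ * r⁻¹) = r * s⁻¹ * r⁻¹ := by
    simp only [map_mul, map_inv, H.B0p, H.B0q, H.B0r, H.B0s]
    try group
  have e9 : A0 (r * s⁻¹ * r⁻¹) = r * s⁻¹ * r⁻¹ := by
    simp only [map_mul, map_inv, H.A0p, H.A0q, H.A0r, H.A0s]
    try group
  have e10 : B0 (r * s⁻¹ * r⁻¹) = r * s⁻¹ * r⁻¹ := by
    simp only [map_mul, map_inv, H.B0p, H.B0q, H.B0r, H.B0s]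
    try group
  have e11 : A0 (r * s⁻¹ * r⁻¹) = r * s⁻¹ * r⁻¹ := by
    simp only [map_mul, map_inv, H.A0p, H.A0q, H.A0r, H.A0s]
    try group
  have e12 : S (r * s⁻¹ * r⁻¹) = p * q⁻¹ * p⁻¹ := by
    simp only [map_mul, map_inv, H.Sp, H.Sq, H.Sr, H.Ss]
    try group
  rw [e0, e1, e2, e3, e4, e5, e6, e7, e8, e9, e10, e11, e12]

end

end Pool.MP_59b15d_al.H93E
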