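import Mathlib
import Pool.Agent.H.MP_59b15d_al.h93e.Lk
import Pool.Agent.H.MP_59b15d_al.h93e.Gar
import Pool.Agent.H.MP_59b15d_al.lin.Lantern
import Pool.Agent.H.MP_59b15d_al.lin.Blk
import Pool.Agent.H.MP_59b15d_al.deg.Alpha
import Pool.Agent.H.MP_59b15d_al.h60g.Bd
import Pool.Agent.H.MP_59b15d_al.lin.Tr
import Pool.Agent.H.MP_59b15d_al.h73e.La
import Pool.Agent.H.MP_59b15d_al.h76r.Sd

set_option autoImplicit false
set_option linter.unusedSimpArgs false

/-!
# The relations `Lk` for the twists of a surface group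
-/

namespace Pool.MP_59b15d_al.H93E

open Pool.MP_59b15d_al.H24T Pool.MP_59b15d_al.H76R Pool.MP_59b15d_al.H73E
open Pool.MP_59b15d_al.H60G Pool.MP_59b15d_al.H40L

section

variable {m : ℕ} {G : Type*} [Group G] {a b : Fin m → G}

/-! ### Membership in the blocks -/

theorem RR_mem (h : IsSurf a b) {lo hi : ℕ} (i : Fin m) (h1 : lo ≤ (i : ℕ)) (h2 : (i : ℕ) < hi) :
    RR h i ∈ MR h lo hi :=
  mul_mem (mul_mem (inv_mem (TA_mem h i h1 h2)) (TB_mem h i h1 h2)) (inv_mem (TA_mem h i h1 h2))

theorem CC_mem (h : IsSurf a b) {lo hi : ℕ} (i j : Fin m) (hij : (j : ℕ) = i + 1)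
    (h1 : lo ≤ (i : ℕ)) (h2 : (j : ℕ) < hi) : CC h i j hij ∈ MR h lo hi :=
  mul_mem (mul_mem (inv_mem (RR_mem h i h1 (by omega))) (TC_mem h i j hij h1 h2))
    (RR_mem h i h1 (by omega))

/-- Disjoint blocks commute. -/
theorem comm_of_blk (h : IsSurf a b) {lo hi lo' hi' : ℕ} {x y : MulAut G}
    (hx : x ∈ MR h lo hi) (hy : y ∈ MR h lo' hi') (hd : hi ≤ lo' ∨ hi' ≤ lo) : Commute x y := by
  rcases hd with hd | hd
  · exact Pool.Agent.H.MP_59b15d_al.Lin.MR_comm h hd hx hy
  · exact (Pool.Agent.H.MP_59b15d_al.Lin.MR_comm h hd hy hx).symm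

/-! ### The exchange and the twists of its two handles -/

section sw

variable (h : IsSurf a b) {i j : Fin m} (hij : (j : ℕ) = i + 1)

theorem SW_TAi : SW h i j hij * TA h i = TA h j * SW h i j hij := by
  have n1 := ne_of_succ hij
  apply aut_ext h
  · intro l
    simp only [MulAut.mul_apply]
    by_cases h1 : l = i
    · subst h1
      simp only [map_mul, map_inv, TA_a, SW_ai, TA_b_ne h n1.symm]
    · by_cases h2 : l = j
      · subst h2
        simp only [map_mul, map_inv, TA_a, SW_aj]
      · simp only [TA_a, SW_a_ne h hij h1 h2]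
  · intro l
    simp only [MulAut.mul_apply]
    by_cases h1 : l = i
    · subst h1
      simp only [map_mul, map_inv, TA_a, TA_b, SW_ai, SW_bi, TA_b_ne h n1.symm]
      group
    · by_cases h2 : l = j
      · subst h2
        simp only [map_mul, map_inv, TA_b_ne h n1, SW_bj, TA_b_ne h n1.symm]
      · simp only [TA_b_ne h h1, TA_b_ne h h2, SW_b_ne h hij h1 h2]

theorem SW_TAj : SW h i j hij * TA h j = TA h i * SW h i j hij := by
  have n1 := ne_of_succ hij
  apply aut_ext h
  · intro l
    simp only [MulAut.mul_apply]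
    by_cases h1 : l = i
    · subst h1
      simp only [map_mul, map_inv, TA_a, SW_ai, TA_b]
      group
    · by_cases h2 : l = j
      · subst h2
        simp only [map_mul, map_inv, TA_a, SW_aj]
      · simp only [TA_a, SW_a_ne h hij h1 h2]
  · intro l
    simp only [MulAut.mul_apply]
    by_cases h1 : l = i
    · subst h1
      simp only [map_mul, map_inv, TA_a, TA_b, TA_b_ne h n1, SW_ai, SW_bi, TA_b_ne h n1.symm]
      group
    · by_cases h2 : l = j
      · subst h2
        simp only [map_mul, map_inv, TA_b, SW_aj, SW_bj]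
      · simp only [TA_b_ne h h1, TA_b_ne h h2, SW_b_ne h hij h1 h2]

theorem SW_TBi : SW h i j hij * TB h i = TB h j * SW h i j hij := by
  have n1 := ne_of_succ hij
  apply aut_ext h
  · intro l
    simp only [MulAut.mul_apply]
    by_cases h1 : l = i
    · subst h1
      simp only [map_mul, map_inv, TB_a, TB_b, SW_ai, SW_bi, TB_a_ne h n1.symm]
      group
    · by_cases h2 : l = j
      · subst h2
        simp only [map_mul, map_inv, TB_a_ne h n1, SW_aj, TB_a_ne h n1.symm]
      · simp only [TB_a_ne h h1, TB_a_ne h h2, SW_a_ne h hij h1 h2]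
  · intro l
    simp only [MulAut.mul_apply]
    by_cases h1 : l = i
    · subst h1
      simp only [map_mul, map_inv, TB_a, TB_b, SW_ai, SW_bi, TB_a_ne h n1.symm]
    · by_cases h2 : l = j
      · subst h2
        simp only [map_mul, map_inv, TB_b, SW_bj]
      · simp only [TB_b, SW_b_ne h hij h1 h2]

theorem SW_TBj : SW h i j hij * TB h j = TB h i * SW h i j hij := by
  have n1 := ne_of_succ hij
  apply aut_ext h
  · intro l
    simp only [MulAut.mul_apply]
    by_cases h1 : l = i
    · subst h1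
      simp only [map_mul, map_inv, TB_a, TB_b, TB_a_ne h n1.symm, TB_a_ne h n1, SW_ai, SW_bi]
      group
    · by_cases h2 : l = j
      · subst h2
        simp only [map_mul, map_inv, TB_a, SW_aj, SW_bj]
      · simp only [TB_a_ne h h1, TB_a_ne h h2, SW_a_ne h hij h1 h2]
  · intro l
    simp only [MulAut.mul_apply]
    by_cases h1 : l = i
    · subst h1
      simp only [map_mul, map_inv, TB_a, TB_b, TB_a_ne h n1.symm, TB_a_ne h n1, SW_ai, SW_bi]
      group
    · by_cases h2 : l = j
      · subst h2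
        simp only [map_mul, map_inv, TB_b, SW_bj]
      · simp only [TB_b, SW_b_ne h hij h1 h2]

/-- The values of the twists of two neighbouring handles. -/
theorem vals : Vals (TA h i)⁻¹ (TB h i) (CC h i j hij) (TA h j)⁻¹ (TB h j) (SW h i j hij)
    (a i) (b i) (a j) (b j) := by
  have n1 := ne_of_succ hij
  have e : cv a b i j = b i * (a i)⁻¹ * (b i)⁻¹ * a j := rfl
  constructor
  · exact TAi_a h i i
  · exact TAi_b h i
  · exact TAi_a h i j
  · exact TAi_b_ne h n1
  · exact TB_a h i
  · exact TB_b h i i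
  · exact TB_a_ne h n1
  · exact TB_b h i j
  · exact CC_ai h hij
  · rw [CC_bi, e]
  · rw [CC_aj, e]; group
  · rw [CC_bj, e]; group
  · exact TAi_a h j i
  · exact TAi_b_ne h n1.symm
  · exact TAi_a h j j
  · exact TAi_b h j
  · exact TB_a_ne h n1.symm
  · exact TB_b h j i
  · exact TB_a h j
  · exact TB_b h j j
  · rw [SW_ai]; group
  · rw [SW_bi]; group
  · exact SW_aj h hij
  · exact SW_bj h hij

/-- The Garside element of the chain is the exchange times the two half rotations. -/
theorem garside :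
    TB h i * (TA h i)⁻¹ * (CC h i j hij * TB h i) * (TB h j * CC h i j hij) *
      ((TA h j)⁻¹ * TB h j) * ((TA h j)⁻¹ * (CC h i j hij * TB h i * (TA h i)⁻¹ *
        CC h i j hij * TB h i * CC h i j hij)) =
    SW h i j hij * (((TA h i)⁻¹ * TB h i) ^ 3 * ((TA h j)⁻¹ * TB h j) ^ 3) := by
  have V := vals h hij
  have n1 := ne_of_succ hij
  apply aut_ext h
  · intro l
    simp only [MulAut.mul_apply, pow_succ, pow_zero, one_mul]
    by_cases h1 : l = i
    · subst h1
      rw [garD_p V, garR_p V]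
    · by_cases h2 : l = j
      · subst h2
        rw [garD_r V, garR_r V]
      · simp only [TAi_a, TB_a_ne h h1, TB_a_ne h h2, CC_a_ne h hij h1 h2, SW_a_ne h hij h1 h2]
  · intro l
    simp only [MulAut.mul_apply, pow_succ, pow_zero, one_mul]
    by_cases h1 : l = i
    · subst h1
      rw [garD_q V, garR_q V]
    · by_cases h2 : l = j
      · subst h2
        rw [garD_s V, garR_s V]
      · simp only [TB_b, TAi_b_ne h h1, TAi_b_ne h h2, CC_b_ne h hij h1 h2,
          SW_b_ne h hij h1 h2]

/-- The exchange commutes with the twists of the other handles. -/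
theorem SW_TA_comm {k : Fin m} (h1 : k ≠ i) (h2 : k ≠ j) :
    Commute (SW h i j hij) (TA h k) := by
  have e1 : (k : ℕ) ≠ i := fun e => h1 (Fin.ext e)
  have e2 : (k : ℕ) ≠ j := fun e => h2 (Fin.ext e)
  have hx : SW h i j hij ∈ MR h (i : ℕ) (i + 2) := SW_mem h hij
  have hy : TA h k ∈ MR h (k : ℕ) (k + 1) := TA_mem h k le_rfl (Nat.lt_succ_self _)
  exact comm_of_blk h hx hy (by omega)

theorem SW_TB_comm {k : Fin m} (h1 : k ≠ i) (h2 : k ≠ j) :
    Commute (SW h i j hij) (TB h k) := by
  have e1 : (k : ℕ) ≠ i := fun e => h1 (Fin.ext e)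
  have e2 : (k : ℕ) ≠ j := fun e => h2 (Fin.ext e)
  have hx : SW h i j hij ∈ MR h (i : ℕ) (i + 2) := SW_mem h hij
  have hy : TB h k ∈ MR h (k : ℕ) (k + 1) := TB_mem h k le_rfl (Nat.lt_succ_self _)
  exact comm_of_blk h hx hy (by omega)

theorem SW_CC_comm {k l : Fin m} (hkl : (l : ℕ) = k + 1) (h1 : (l : ℕ) ≠ i) (h2 : (k : ℕ) ≠ i)
    (h3 : (k : ℕ) ≠ j) : Commute (SW h i j hij) (CC h k l hkl) := by
  have hx : SW h i j hij ∈ MR h (i : ℕ) (i + 2) := SW_mem h hij
  have hy : CC h k l hkl ∈ MR h (k : ℕ) (k + 2) := CC_mem h k l hkl le_rfl (by omega)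
  exact comm_of_blk h hx hy (by omega)

end sw

/-! ### The instance -/

theorem TrA_ge (h : IsSurf a b) {k : ℕ} (hk : m ≤ k) : TrA h k = 1 := dif_neg (by omega)
theorem TrB_ge (h : IsSurf a b) {k : ℕ} (hk : m ≤ k) : TrB h k = 1 := dif_neg (by omega)
theorem TrC_ge (h : IsSurf a b) {k : ℕ} (hk : m ≤ k + 1) : TrC h k = 1 := dif_neg (by omega)

/-- **The relations hold** for the twists and the exchanges of the handles. -/
theorem lk_of (h : IsSurf a b) {S : ℕ → MulAut G}
    (hS : ∀ k (hk : k + 1 < m), S k = SW h ⟨k, by omega⟩ ⟨k + 1, hk⟩ rfl)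
    (hS' : ∀ k, m ≤ k + 1 → S k = 1) : Lk m (TrA h) (TrB h) (TrC h) S where
  AA := by
    intro i j
    rcases lt_or_ge i m with hi | hi
    · rcases lt_or_ge j m with hj | hj
      · rw [TrA_lt h hi, TrA_lt h hj]
        exact (TA_TA h _ _).inv_inv
      · rw [TrA_ge h hj]
        exact Commute.one_right _
    · rw [TrA_ge h hi]
      exact Commute.one_left _
  AC := by
    intro i j
    rcases lt_or_ge i m with hi | hi
    · rcases lt_or_ge (j + 1) m with hj | hj
      · rw [TrA_lt h hi, TrC_lt h hj]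
        exact (TA_CC h rfl _).inv_left
      · rw [TrC_ge h hj]
        exact Commute.one_right _
    · rw [TrA_ge h hi]
      exact Commute.one_left _
  CC := by
    intro i j
    rcases lt_or_ge (i + 1) m with hi | hi
    · rcases lt_or_ge (j + 1) m with hj | hj
      · rw [TrC_lt h hi, TrC_lt h hj]
        exact CC_CC h rfl rfl
      · rw [TrC_ge h hj]
        exact Commute.one_right _
    · rw [TrC_ge h hi]
      exact Commute.one_left _
  AB := by
    intro i j hij
    rcases lt_or_ge i m with hi | hi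
    · rcases lt_or_ge j m with hj | hj
      · rw [TrA_lt h hi, TrB_lt h hj]
        exact (TA_TB h (fun e => hij (congrArg Fin.val e))).inv_left
      · rw [TrB_ge h hj]
        exact Commute.one_right _
    · rw [TrA_ge h hi]
      exact Commute.one_left _
  BB := by
    intro i j
    rcases lt_or_ge i m with hi | hi
    · rcases lt_or_ge j m with hj | hj
      · rw [TrB_lt h hi, TrB_lt h hj]
        exact TB_TB h _ _
      · rw [TrB_ge h hj]
        exact Commute.one_right _
    · rw [TrB_ge h hi]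
      exact Commute.one_left _
  BC := by
    intro i j h1 h2
    rcases lt_or_ge i m with hi | hi
    · rcases lt_or_ge (j + 1) m with hj | hj
      · rw [TrB_lt h hi, TrC_lt h hj]
        exact TB_CC h rfl (fun e => h1 (congrArg Fin.val e)) (fun e => h2 (congrArg Fin.val e))
      · rw [TrC_ge h hj]
        exact Commute.one_right _
    · rw [TrB_ge h hi]
      exact Commute.one_left _
  brA := by
    intro i
    rcases lt_or_ge i m with hi | hi
    · rw [TrA_lt h hi, TrB_lt h hi]
      exact TAi_TB_braid h _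
    · rw [TrA_ge h hi, TrB_ge h hi]
  brC := by
    intro i hi
    rw [TrB_lt h (by omega : i < m), TrC_lt h hi]
    exact TBi_CC_braid h rfl
  brC' := by
    intro i hi
    rw [TrB_lt h hi, TrC_lt h hi]
    exact (CC_TBj_braid h rfl).symm
  SA := by
    intro i hi
    rw [hS i hi, TrA_lt h (by omega : i < m), TrA_lt h hi]
    have e := SW_TAi h (i := ⟨i, by omega⟩) (j := ⟨i + 1, hi⟩) rfl
    rw [mul_inv_eq_iff_eq_mul, mul_assoc, e, inv_mul_cancel_left]
  SA' := by
    intro i hi
    rw [hS i hi, TrA_lt h (by omega : i < m), TrA_lt h hi]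
    have e := SW_TAj h (i := ⟨i, by omega⟩) (j := ⟨i + 1, hi⟩) rfl
    rw [mul_inv_eq_iff_eq_mul, mul_assoc, e, inv_mul_cancel_left]
  SB := by
    intro i hi
    rw [hS i hi, TrB_lt h (by omega : i < m), TrB_lt h hi]
    exact SW_TBi h (i := ⟨i, by omega⟩) (j := ⟨i + 1, hi⟩) rfl
  SB' := by
    intro i hi
    rw [hS i hi, TrB_lt h (by omega : i < m), TrB_lt h hi]
    exact SW_TBj h (i := ⟨i, by omega⟩) (j := ⟨i + 1, hi⟩) rfl
  SAo := by
    intro i j h1 h2
    rcases lt_or_ge (i + 1) m with hi | hi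
    · rcases lt_or_ge j m with hj | hj
      · rw [hS i hi, TrA_lt h hj]
        exact (SW_TA_comm h (i := ⟨i, by omega⟩) (j := ⟨i + 1, hi⟩) rfl
          (fun e => h1 (congrArg Fin.val e)) (fun e => h2 (congrArg Fin.val e))).inv_right
      · rw [TrA_ge h hj]
        exact Commute.one_right _
    · rw [hS' i hi]
      exact Commute.one_left _
  SBo := by
    intro i j h1 h2
    rcases lt_or_ge (i + 1) m with hi | hi
    · rcases lt_or_ge j m with hj | hj
      · rw [hS i hi, TrB_lt h hj]
        exact SW_TB_comm h (i := ⟨i, by omega⟩) (j := ⟨i + 1, hi⟩) rfl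
          (fun e => h1 (congrArg Fin.val e)) (fun e => h2 (congrArg Fin.val e))
      · rw [TrB_ge h hj]
        exact Commute.one_right _
    · rw [hS' i hi]
      exact Commute.one_left _
  SCo := by
    intro i j h1 h2 h3
    rcases lt_or_ge (i + 1) m with hi | hi
    · rcases lt_or_ge (j + 1) m with hj | hj
      · rw [hS i hi, TrC_lt h hj]
        exact SW_CC_comm h (i := ⟨i, by omega⟩) (j := ⟨i + 1, hi⟩) rfl
          (k := ⟨j, by omega⟩) (l := ⟨j + 1, hj⟩) rfl h1 h2 h3
      · rw [TrC_ge h hj]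
        exact Commute.one_right _
    · rw [hS' i hi]
      exact Commute.one_left _
  SSC := by
    intro i hi
    rw [hS i (by omega), hS (i + 1) hi, TrC_lt h (by omega : i + 1 < m), TrC_lt h hi]
    exact Pool.Agent.H.MP_59b15d_al.Deg.SSC' h (i := ⟨i, by omega⟩) (j := ⟨i + 1, by omega⟩)
      (k := ⟨i + 2, hi⟩) rfl rfl
  SSC' := by
    intro i hi
    rw [hS i (by omega), hS (i + 1) hi, TrC_lt h (by omega : i + 1 < m), TrC_lt h hi]
    exact Pool.Agent.H.MP_59b15d_al.Deg.SSC h (i := ⟨i, by omega⟩) (j := ⟨i + 1, by omega⟩)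
      (k := ⟨i + 2, hi⟩) rfl rfl
  gar := by
    intro i hi
    rw [hS i hi, TrA_lt h (by omega : i < m), TrA_lt h hi, TrB_lt h (by omega : i < m),
      TrB_lt h hi, TrC_lt h hi]
    exact garside h (i := ⟨i, by omega⟩) (j := ⟨i + 1, hi⟩) rfl
  Cout := fun i hi => TrC_ge h hi

end

end Pool.MP_59b15d_al.H93E
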